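import Mathlib

/-!
# The fully dynamic vector balancing game

Histories of updates are lists with the most recent update first.  The update number `t`
(counting from `0`) is made when the history has length `t`; a vector inserted by it carries
the name `t` from then on.
-/

set_option autoImplicit false

namespace Pool.Agent.DynBal

/-- An update: insert a new vector of `ℝ^n`, or delete the active vector with name `s`. -/
inductive Update (n : ℕ)
  | insert (a : Fin n → ℝ) : Update n
  | delete (s : ℕ) : Update n

variable {n : ℕ}

/-- The set of names of the vectors that are active after the updates of the history. -/
def active : List (Update n) → Finset ℕ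
  | [] => ∅
  | Update.insert _ :: h => Insert.insert h.length (active h)
  | Update.delete s :: h => (active h).erase s

/-- The vector with name `t` (zero if the update number `t` was no insertion). -/
def vec : List (Update n) → ℕ → Fin n → ℝ
  | [], _ => 0
  | Update.insert a :: h, t => if t = h.length then a else vec h t
  | Update.delete _ :: h, t => vec h t

/-- Every inserted vector has all its coordinates in `[-1, 1]`, and every deletion concerns
a vector that is active at that moment. -/
def Legal : List (Update n) → Prop
  | [] => True
  | Update.insert a :: h => (∀ i, |a i| ≤ 1) ∧ Legal h
  | Update.delete s :: h => s ∈ active h ∧ Legal h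

/-- The energy of each coordinate `i`, that is the sum of `(a i)^2` over the active vectors
`a`, is at most `(r i)^2`. -/
def EnergyLe (r : Fin n → ℝ) (h : List (Update n)) : Prop :=
  ∀ i, ∑ t ∈ active h, (vec h t i) ^ 2 ≤ (r i) ^ 2

/-- The real number `1` or `-1` given by a sign. -/
def sgn (b : Bool) : ℝ := if b then 1 else -1

/-- The `i`-th coordinate of the signed sum of the active vectors. -/
noncomputable def signedSum (h : List (Update n)) (σ : ℕ → Bool) (i : Fin n) : ℝ :=
  ∑ t ∈ active h, sgn (σ t) * vec h t i

/-- The number of vectors that are active both before and after the last update (`h` is the
history before it, `h'` the history after it) and whose sign is changed. -/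
def recourse (h h' : List (Update n)) (σ σ' : ℕ → Bool) : ℕ :=
  ((active h ∩ active h').filter (fun t => σ t ≠ σ' t)).card

/-- A deterministic online algorithm: it assigns a sign to every name as a function of the
updates made so far. -/
abbrev Algorithm (n : ℕ) := List (Update n) → ℕ → Bool

/-- An adaptive adversary: it chooses the next update as a function of all earlier updates
and all earlier signings of the algorithm. -/
abbrev Adversary (n : ℕ) := List (Update n × (ℕ → Bool)) → Update n

/-- The first `t` rounds of the game between an algorithm and an adversary: in every round
the adversary makes an update and the algorithm answers with a signing. -/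
def play (alg : Algorithm n) (adv : Adversary n) : ℕ → List (Update n × (ℕ → Bool))
  | 0 => []
  | t + 1 => (adv (play alg adv t), alg (adv (play alg adv t) :: (play alg adv t).map Prod.fst))
      :: play alg adv t

/-- The history of updates after `t` rounds. -/
def history (alg : Algorithm n) (adv : Adversary n) (t : ℕ) : List (Update n) :=
  (play alg adv t).map Prod.fst

end Pool.Agent.DynBal
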