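import Pool.Agent.DynBal.Step
import Pool.Agent.DynBal.Game

/-!
# The dyadic chain of signings
-/

set_option autoImplicit false

namespace Pool.Agent.DynBal

variable {n : ℕ}

lemma active_lt {h : List (Update n)} {a : ℕ} (ha : a ∈ active h) : a < h.length := by
  induction h with
  | nil => simp [active] at ha
  | cons u h ih =>
    cases u with
    | insert b =>
      simp only [active, Finset.mem_insert] at ha
      simp only [List.length_cons]
      rcases ha with rfl | ha
      · omega
      · have := ih ha
        omega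
    | delete s =>
      simp only [active, Finset.mem_erase] at ha
      simp only [List.length_cons]
      have := ih ha.2
      omega

lemma vec_append (l h : List (Update n)) {a : ℕ} (ha : a < h.length) :
    vec (l ++ h) a = vec h a := by
  induction l with
  | nil => rfl
  | cons u l ih =>
    cases u with
    | insert b =>
      simp only [List.cons_append, vec]
      rw [if_neg, ih]
      rw [List.length_append]
      omega
    | delete s =>
      simp only [List.cons_append, vec]
      exact ih

lemma card_change (l h : List (Update n)) :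
    (active h \ active (l ++ h)).card + (active (l ++ h) \ active h).card ≤ l.length := by
  induction l with
  | nil => simp
  | cons u l ih =>
    cases u with
    | insert b =>
      simp only [List.cons_append, active, List.length_cons]
      have h1 : (active h \ Insert.insert (l ++ h).length (active (l ++ h))).card ≤
          (active h \ active (l ++ h)).card :=
        Finset.card_le_card (Finset.sdiff_subset_sdiff le_rfl (Finset.subset_insert _ _))
      have h2 : (Insert.insert (l ++ h).length (active (l ++ h)) \ active h).card ≤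
          (active (l ++ h) \ active h).card + 1 := by
        refine (Finset.card_le_card ?_).trans (Finset.card_insert_le (l ++ h).length _)
        intro a ha
        simp only [Finset.mem_sdiff, Finset.mem_insert] at ha ⊢
        tauto
      omega
    | delete s =>
      simp only [List.cons_append, active, List.length_cons]
      have h1 : (active h \ (active (l ++ h)).erase s).card ≤
          (active h \ active (l ++ h)).card + 1 := by
        refine (Finset.card_le_card ?_).trans (Finset.card_insert_le s _)
        intro a ha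
        simp only [Finset.mem_sdiff, Finset.mem_insert, Finset.mem_erase] at ha ⊢
        tauto
      have h2 : ((active (l ++ h)).erase s \ active h).card ≤ (active (l ++ h) \ active h).card :=
        Finset.card_le_card (Finset.sdiff_subset_sdiff (Finset.erase_subset _ _) le_rfl)
      omega

lemma abs_vec_le {h : List (Update n)} (hl : Legal h) {a : ℕ} (ha : a ∈ active h) (i : Fin n) :
    |vec h a i| ≤ 1 := by
  induction h with
  | nil => simp [active] at ha
  | cons u h ih =>
    cases u with
    | insert b =>
      simp only [active, Finset.mem_insert] at ha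
      simp only [Legal] at hl
      simp only [vec]
      split_ifs with h1
      · exact hl.1 i
      · exact ih hl.2 (ha.resolve_left h1)
    | delete s =>
      simp only [active, Finset.mem_erase] at ha
      simp only [Legal] at hl
      simp only [vec]
      exact ih hl.2 ha.2

lemma Legal.drop {h : List (Update n)} (hl : Legal h) (m : ℕ) : Legal (h.drop m) := by
  induction h generalizing m with
  | nil => simpa using hl
  | cons u h ih =>
    cases m with
    | zero => simpa using hl
    | succ m =>
      rw [List.drop_succ_cons]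
      cases u with
      | insert b => exact ih hl.2 m
      | delete s => exact ih hl.2 m

/-- the coordinatewise rescaled vectors -/
noncomputable def sv (r : Fin n → ℝ) (h : List (Update n)) : ℕ → Fin n → ℝ :=
  fun a i => vec h a i / r i

/-- noise of one level -/
noncomputable def nu (L n : ℕ) : ℝ := Real.log (2 * (((L + 1 : ℕ) : ℝ) ^ L * (2 * n * Real.exp 2)))

/-- slack of level `k` -/
noncomputable def lam (L n k : ℕ) : ℝ := ((L : ℝ) - k) * (nu L n + 1)

/-- what one step has to achieve -/
def StepSpec (L : ℕ) (r : Fin n → ℝ) (k : ℕ) (h : List (Update n)) (s0 s : ℕ → ℝ) : Prop :=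
  (∀ a, s a = 1 ∨ s a = -1) ∧ (∀ a, a ∉ active h → s a = s0 a) ∧
    ∑ a ∈ active h, |s a - s0 a| ≤ 6 * 2 ^ k ∧
    Good L k (lam L n k) (active h) (sv r h) s

open Classical in
/-- one step of the algorithm -/
noncomputable def next (L : ℕ) (r : Fin n → ℝ) (k : ℕ) (h : List (Update n)) (s0 : ℕ → ℝ) :
    ℕ → ℝ :=
  if hx : ∃ s, StepSpec L r k h s0 s then hx.choose else s0

/-- the signing of the level `L - d` belonging to a history whose length is a multiple of
`2 ^ (L - d)` -/
noncomputable def node (L : ℕ) (r : Fin n → ℝ) : ℕ → List (Update n) → ℕ → ℝ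
  | 0, _ => fun _ => 1
  | d + 1, h => if 2 ^ (L - d) ∣ h.length then node L r d h
      else next L r (L - (d + 1)) h (node L r d (h.drop (2 ^ (L - (d + 1)))))

/-- the adversary has respected the rules all the time -/
def OK (r : Fin n → ℝ) (h : List (Update n)) : Prop := Legal h ∧ ∀ m, EnergyLe r (h.drop m)

lemma OK.drop {r : Fin n → ℝ} {h : List (Update n)} (hh : OK r h) (m : ℕ) : OK r (h.drop m) := by
  refine ⟨hh.1.drop m, fun k => ?_⟩
  rw [List.drop_drop]
  exact hh.2 _

lemma sv_cube {r : Fin n → ℝ} (hr : ∀ i, 1 ≤ r i) {h : List (Update n)} (hl : Legal h) {a : ℕ}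
    (ha : a ∈ active h) : sv r h a ∈ Cube n := by
  intro i
  have h1 := abs_vec_le hl ha i
  have h2 := hr i
  unfold sv
  rw [abs_div, div_le_one (by positivity)]
  have := le_abs_self (r i)
  linarith

lemma sv_energy {r : Fin n → ℝ} (hr : ∀ i, 1 ≤ r i) {h : List (Update n)} (hh : OK r h)
    (i : Fin n) : ∑ a ∈ active h, sv r h a i ^ 2 ≤ 1 := by
  have h1 := hh.2 0 i
  rw [List.drop_zero] at h1
  have h2 : 0 < r i := lt_of_lt_of_le one_pos (hr i)
  unfold sv
  simp only [div_pow]
  rw [← Finset.sum_div, div_le_one (by positivity)]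
  exact h1

lemma nu_nonneg {L n : ℕ} (hn : 0 < n) : 0 ≤ nu L n := by
  unfold nu
  apply Real.log_nonneg
  have h1 : (1:ℝ) ≤ ((L + 1 : ℕ) : ℝ) ^ L := one_le_pow₀ (by push_cast; linarith [Nat.cast_nonneg (α := ℝ) L])
  have h2 : (1:ℝ) ≤ n := by exact_mod_cast hn
  have h3 : (1:ℝ) ≤ Real.exp 2 := Real.one_le_exp (by norm_num)
  have h4 : (1:ℝ) ≤ 2 * n * Real.exp 2 := by nlinarith
  nlinarith

lemma next_spec {L : ℕ} (hn : 0 < n) {r : Fin n → ℝ} (hr : ∀ i, 1 ≤ r i) {k : ℕ} (hk : k + 1 ≤ L)
    {h : List (Update n)} (hh : OK r h) {m : ℕ} (hm : m = 2 ^ k)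
    {s0 : ℕ → ℝ} (hs : ∀ a, s0 a = 1 ∨ s0 a = -1)
    (hg : Good L (k + 1) (lam L n (k + 1)) (active (h.drop m)) (sv r (h.drop m)) s0) :
    StepSpec L r k h s0 (next L r k h s0) := by
  classical
  have hex : ∃ s, StepSpec L r k h s0 s := by
    have hsplit : h.take m ++ h.drop m = h := List.take_append_drop m h
    have hlen : (h.take m).length ≤ m := by
      rw [List.length_take]
      exact min_le_left _ _
    have hcc := card_change (h.take m) (h.drop m)
    rw [hsplit] at hcc
    have hvec : ∀ a ∈ active (h.drop m), sv r (h.drop m) a = sv r h a := by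
      intro a ha
      have := vec_append (h.take m) (h.drop m) (active_lt ha)
      rw [hsplit] at this
      unfold sv
      rw [this]
    have hg' : Good L (k + 1) (lam L n (k + 1)) (active (h.drop m)) (sv r h) s0 := by
      intro g hg0
      refine le_trans (le_of_eq ?_) (hg g hg0)
      exact Finset.sum_congr rfl fun a ha => by rw [hvec a ha]
    have hcube : ∀ a ∈ active (h.drop m), sv r h a ∈ Cube n := by
      intro a ha
      rw [← hvec a ha]
      exact sv_cube hr (hh.1.drop m) ha
    have hM : (0:ℝ) < 2 ^ k := by positivity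
    obtain ⟨s, h1, h2, h3, h4⟩ := step_exists hn L k (active (h.drop m)) (active h) (sv r h)
      hcube (sv_energy hr hh) s0 hs hM hg' (by
        have : (((active (h.drop m) \ active h).card + (active h \ active (h.drop m)).card : ℕ) : ℝ)
            ≤ ((m : ℕ) : ℝ) := by exact_mod_cast hcc.trans hlen
        rw [hm] at this ⊢
        push_cast at this
        exact this)
    refine ⟨s, h1, h2, h3, ?_⟩
    intro g hg0
    refine (h4 g hg0).trans ?_
    have e1 : (2:ℝ) ^ k * (1 / 2) ^ L ≤ 1 := by
      rw [one_div, inv_pow, ← div_eq_mul_inv, div_le_one (by positivity)]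
      exact pow_le_pow_right₀ (by norm_num) (by omega)
    have e2 : Real.log (2 * (((L + 1 : ℕ) : ℝ) ^ k * (2 * n * Real.exp 2))) ≤ nu L n := by
      unfold nu
      have hn' : (0:ℝ) < n := by exact_mod_cast hn
      apply Real.log_le_log (by positivity)
      gcongr
      · push_cast
        linarith [Nat.cast_nonneg (α := ℝ) L]
      · omega
    have e3 : lam L n k = lam L n (k + 1) + (nu L n + 1) := by
      unfold lam
      push_cast
      ring
    rw [e3]
    linarith
  unfold next
  rw [dif_pos hex]
  exact hex.choose_spec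

lemma lam_mono {L k : ℕ} (hn : 0 < n) : lam L n (k + 1) ≤ lam L n k := by
  have := nu_nonneg (L := L) hn
  unfold lam
  push_cast
  nlinarith

lemma good_down {L k : ℕ} (hn : 0 < n) {A : Finset ℕ} {v : ℕ → Fin n → ℝ} {s : ℕ → ℝ}
    (hv : ∀ a ∈ A, v a ∈ Cube n) (hg : Good L (k + 1) (lam L n (k + 1)) A v s) :
    Good L k (lam L n k) A v s := by
  intro g hg0
  obtain ⟨g', hg', heq⟩ := cls_succ hg0
  refine le_trans (le_of_eq ?_) ((hg g' hg').trans (lam_mono hn))
  exact Finset.sum_congr rfl fun a ha => by rw [heq _ (hv a ha)]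

/-- if `2 ^ k` divides `t` and `2 ^ (k + 1)` does not, then `2 ^ (k + 1)` divides `t - 2 ^ k` -/
lemma dvd_sub_pow {t k : ℕ} (h1 : 2 ^ k ∣ t) (h2 : ¬ 2 ^ (k + 1) ∣ t) :
    2 ^ k ≤ t ∧ 2 ^ (k + 1) ∣ t - 2 ^ k := by
  obtain ⟨c, rfl⟩ := h1
  have hodd : ¬ 2 ∣ c := by
    intro hc
    apply h2
    rw [pow_succ]
    exact Nat.mul_dvd_mul_left _ hc
  have hc1 : 1 ≤ c := by
    by_contra h0
    have : c = 0 := by omega
    subst this
    exact hodd (dvd_zero _)
  refine ⟨Nat.le_mul_of_pos_right _ hc1, ?_⟩
  have : 2 ^ k * c - 2 ^ k = 2 ^ k * (c - 1) := by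
    rw [Nat.mul_sub, mul_one]
  rw [this, pow_succ]
  apply Nat.mul_dvd_mul_left
  omega

lemma node_inv {L : ℕ} (hn : 0 < n) {r : Fin n → ℝ} (hr : ∀ i, 1 ≤ r i) (d : ℕ) (hd : d ≤ L)
    (h : List (Update n)) (hh : OK r h) (hlen : h.length < 2 ^ L)
    (hdvd : 2 ^ (L - d) ∣ h.length) :
    (∀ a, node L r d h a = 1 ∨ node L r d h a = -1) ∧
      Good L (L - d) (lam L n (L - d)) (active h) (sv r h) (node L r d h) := by
  induction d generalizing h with
  | zero =>
    refine ⟨fun a => Or.inl rfl, ?_⟩
    rw [Nat.sub_zero] at hdvd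
    have h0 : h.length = 0 := Nat.eq_zero_of_dvd_of_lt hdvd hlen
    have h1 : h = [] := List.eq_nil_of_length_eq_zero h0
    subst h1
    intro g _
    simp [active, lam]
  | succ d ih =>
    have hk : L - (d + 1) + 1 = L - d := by omega
    by_cases hdd : 2 ^ (L - d) ∣ h.length
    · have e : node L r (d + 1) h = node L r d h := by
        show (if 2 ^ (L - d) ∣ h.length then node L r d h else _) = _
        rw [if_pos hdd]
      rw [e]
      obtain ⟨i1, i2⟩ := ih (by omega) h hh hlen hdd
      refine ⟨i1, ?_⟩
      rw [← hk] at i2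
      exact good_down hn (fun a ha => sv_cube hr hh.1 ha) i2
    · have e : node L r (d + 1) h =
          next L r (L - (d + 1)) h (node L r d (h.drop (2 ^ (L - (d + 1))))) := by
        show (if 2 ^ (L - d) ∣ h.length then node L r d h else _) = _
        rw [if_neg hdd]
      rw [e]
      have hdd' : ¬ 2 ^ (L - (d + 1) + 1) ∣ h.length := by rwa [hk]
      obtain ⟨j1, j2⟩ := dvd_sub_pow hdvd hdd'
      obtain ⟨i1, i2⟩ := ih (by omega) (h.drop (2 ^ (L - (d + 1)))) (hh.drop _)
        (by rw [List.length_drop]; omega) (by rw [List.length_drop, ← hk]; exact j2)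
      rw [← hk] at i2
      obtain ⟨k1, -, -, k4⟩ := next_spec hn hr (by omega) hh rfl i1 i2
      exact ⟨k1, k4⟩

end Pool.Agent.DynBal
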