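import Pool.Agent.DynBal.Mgf

/-!
# Clipping, the classes of test functions, and their exponential moments
-/

open scoped ENNReal

namespace Pool.Agent.DynBal

/-- clip a real number at level `τ` -/
noncomputable def clip (τ x : ℝ) : ℝ := max (-τ) (min τ x)

lemma clip_of_abs_le {τ x : ℝ} (h : |x| ≤ τ) : clip τ x = x := by
  obtain ⟨h1, h2⟩ := abs_le.1 h
  unfold clip
  rw [min_eq_right h2, max_eq_right h1]

lemma clip_of_le {τ x : ℝ} (h0 : 0 ≤ τ) (h : τ ≤ x) : clip τ x = τ := by
  unfold clip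
  rw [min_eq_left h, max_eq_right (by linarith)]

lemma clip_of_le_neg {τ x : ℝ} (h0 : 0 ≤ τ) (h : x ≤ -τ) : clip τ x = -τ := by
  unfold clip
  rw [min_eq_right (by linarith), max_eq_left h]

lemma abs_clip_le {τ x : ℝ} (h0 : 0 ≤ τ) : |clip τ x| ≤ τ := by
  unfold clip
  rw [abs_le]
  exact ⟨le_max_left _ _, max_le (by linarith) (min_le_left _ _)⟩

lemma sub_clip {τ x : ℝ} (h0 : 0 ≤ τ) : x - clip τ x = max (x - τ) 0 + min (x + τ) 0 := by
  rcases le_total x (-τ) with h | h
  · rw [clip_of_le_neg h0 h, max_eq_right (by linarith), min_eq_left (by linarith)]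
    ring
  · rcases le_total x τ with h' | h'
    · rw [clip_of_abs_le (abs_le.2 ⟨h, h'⟩), max_eq_right (by linarith),
        min_eq_right (by linarith)]
      ring
    · rw [clip_of_le h0 h', max_eq_left (by linarith), min_eq_right (by linarith)]
      ring

lemma shrink_clip {τ : ℝ} (h0 : 0 ≤ τ) : Shrink (clip τ) := by
  refine ⟨fun x => ?_, fun x y hxy => ?_, fun x y hxy => ?_⟩
  · rcases le_total x (-τ) with h | h
    · rw [clip_of_le_neg h0 h, clip_of_le h0 (by linarith)]
      ring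
    · rcases le_total x τ with h' | h'
      · rw [clip_of_abs_le (abs_le.2 ⟨h, h'⟩), clip_of_abs_le]
        rw [abs_neg]
        exact abs_le.2 ⟨h, h'⟩
      · rw [clip_of_le h0 h', clip_of_le_neg h0 (by linarith)]
  · unfold clip
    exact max_le_max le_rfl (min_le_min le_rfl hxy)
  · show x - clip τ x ≤ y - clip τ y
    rw [sub_clip h0, sub_clip h0]
    exact add_le_add (max_le_max (by linarith) le_rfl) (min_le_min (by linarith) le_rfl)

lemma two_mul_clip (τ x : ℝ) : 2 * clip τ x = clip (2 * τ) (2 * x) := by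
  unfold clip
  rw [mul_max_of_nonneg _ _ (by norm_num : (0:ℝ) ≤ 2), mul_min_of_nonneg _ _
    (by norm_num : (0:ℝ) ≤ 2)]
  congr 1
  ring

/-- The classes of test functions: signed coordinates, then alternately convex
combinations and clipping at the levels `2^{-q}`, `q ≤ J`. -/
def cls (n J : ℕ) : ℕ → Set ((Fin n → ℝ) → ℝ)
  | 0 => {g | ∃ (i : Fin n) (b : Bool), g = fun a => (if b then 1 else -1) * a i}
  | k + 1 => {g | ∃ q ∈ Finset.range (J + 1), ∃ h ∈ convexHull ℝ (cls n J k),
      g = fun a => clip ((1 / 2) ^ q) (h a)}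

/-- the unit cube -/
def Cube (n : ℕ) : Set (Fin n → ℝ) := {a | ∀ i, |a i| ≤ 1}

lemma abs_hull_le {n : ℕ} {H : Set ((Fin n → ℝ) → ℝ)} {a : Fin n → ℝ}
    (hH : ∀ g ∈ H, |g a| ≤ 1) {g : (Fin n → ℝ) → ℝ} (hg : g ∈ convexHull ℝ H) : |g a| ≤ 1 := by
  have hc : Convex ℝ {g : (Fin n → ℝ) → ℝ | |g a| ≤ 1} := by
    intro x hx y hy α β hα hβ hab
    change |x a| ≤ 1 at hx; change |y a| ≤ 1 at hy; change |(α • x + β • y) a| ≤ 1
    calc |(α • x + β • y) a| = |α * x a + β * y a| := by simp
      _ ≤ |α * x a| + |β * y a| := abs_add_le _ _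
      _ = α * |x a| + β * |y a| := by rw [abs_mul, abs_mul, abs_of_nonneg hα, abs_of_nonneg hβ]
      _ ≤ α * 1 + β * 1 := by gcongr
      _ = 1 := by rw [mul_one, mul_one, hab]
  exact convexHull_min hH hc hg

lemma abs_cls_le {n J k : ℕ} {a : Fin n → ℝ} (ha : a ∈ Cube n) {g : (Fin n → ℝ) → ℝ}
    (hg : g ∈ cls n J k) : |g a| ≤ 1 := by
  cases k with
  | zero =>
    obtain ⟨i, b, rfl⟩ := hg
    have := ha i
    cases b <;> simpa using this
  | succ k =>
    obtain ⟨q, -, h, -, rfl⟩ := hg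
    refine (abs_clip_le (by positivity)).trans ?_
    exact pow_le_one₀ (by norm_num) (by norm_num)

lemma cls_nonempty {n J : ℕ} (hn : 0 < n) (k : ℕ) : (cls n J k).Nonempty := by
  induction k with
  | zero => exact ⟨_, ⟨0, hn⟩, true, rfl⟩
  | succ k ih =>
    obtain ⟨g, hg⟩ := ih
    exact ⟨_, 0, by simp, g, subset_convexHull ℝ _ hg, rfl⟩

/-- On the cube every function of class `k` agrees with one of class `k + 1`. -/
lemma cls_succ {n J k : ℕ} {g : (Fin n → ℝ) → ℝ} (hg : g ∈ cls n J k) :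
    ∃ g' ∈ cls n J (k + 1), ∀ a ∈ Cube n, g' a = g a := by
  refine ⟨fun a => clip ((1 / 2) ^ 0) (g a), ⟨0, by simp, g, subset_convexHull ℝ _ hg, rfl⟩, ?_⟩
  intro a ha
  show clip ((1 / 2) ^ 0) (g a) = g a
  rw [pow_zero, clip_of_abs_le]
  exact abs_cls_le ha hg

section mgf

variable {ι : Type*} {n J : ℕ}

/-- the doubled evaluation -/
def ev (v : ι → Fin n → ℝ) (H : Set ((Fin n → ℝ) → ℝ)) (a : ι) (t : ↥H) : ℝ := 2 * t.1 (v a)

lemma mgf_zero (v : ι → Fin n → ℝ) (l : List ι)
    (he : ∀ i, (l.map (fun a => v a i ^ 2)).sum ≤ 1) :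
    E2 (ev v (cls n J 0)) l (fun _ => 0) ≤ ENNReal.ofReal (2 * n * Real.exp 2) := by
  classical
  have h1 := E2_mono_index (Finset.univ : Finset (Fin n × Bool))
    (ev v (cls n J 0)) (fun p a (_ : Unit) => (if p.2 then 1 else -1) * (2 * v a p.1))
    (fun t => (t.2.choose, t.2.choose_spec.choose)) (fun _ => Finset.mem_univ _) (fun _ => ())
    (fun t a => by
      have := t.2.choose_spec.choose_spec
      show 2 * t.1 (v a) = _
      conv_lhs => rw [this]
      simp only
      ring) l (fun _ => 0) (fun _ _ => 0) (fun _ => rfl)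
  refine h1.trans ?_
  have h2 : ∀ p : Fin n × Bool,
      E2 (fun a (_ : Unit) => (if p.2 then (1:ℝ) else -1) * (2 * v a p.1)) l (fun _ => 0) ≤
        ENNReal.ofReal (Real.exp 2) := by
    intro p
    rw [E2_unit]
    refine ENNReal.ofReal_le_ofReal ?_
    rw [Real.exp_zero, one_mul]
    have h3 : ∀ l : List ι, (l.map (fun a => Real.cosh ((if p.2 then (1:ℝ) else -1) *
        (2 * v a p.1)))).prod ≤ Real.exp (2 * (l.map (fun a => v a p.1 ^ 2)).sum) := by
      intro l
      induction l with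
      | nil => simp
      | cons a l ih =>
        simp only [List.map_cons, List.prod_cons, List.sum_cons]
        rw [mul_add, Real.exp_add]
        have hp : 0 ≤ (l.map (fun a => Real.cosh ((if p.2 then (1:ℝ) else -1) *
            (2 * v a p.1)))).prod := by
          apply List.prod_nonneg
          intro x hx
          obtain ⟨b, -, rfl⟩ := List.mem_map.1 hx
          exact (Real.cosh_pos _).le
        refine mul_le_mul ?_ ih hp (Real.exp_pos _).le
        refine (Real.cosh_le_exp_half_sq _).trans (Real.exp_le_exp.2 (le_of_eq ?_))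
        split_ifs <;> ring
    refine (h3 l).trans (Real.exp_le_exp.2 ?_)
    have := he p.1
    linarith
  calc _ ≤ ∑ p : Fin n × Bool, ENNReal.ofReal (Real.exp 2) := Finset.sum_le_sum fun p _ => h2 p
    _ = ENNReal.ofReal (2 * n * Real.exp 2) := by
      rw [Finset.sum_const, Finset.card_univ, Fintype.card_prod, Fintype.card_fin,
        Fintype.card_bool, nsmul_eq_mul, ENNReal.ofReal_mul (by positivity)]
      congr 1
      rw [← ENNReal.ofReal_natCast]
      push_cast
      ring_nf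

lemma mgf_succ (hn : 0 < n) (v : ι → Fin n → ℝ) (l : List ι) (k : ℕ) :
    E2 (ev v (cls n J (k + 1))) l (fun _ => 0) ≤
      (J + 1 : ℕ) * E2 (ev v (cls n J k)) l (fun _ => 0) := by
  classical
  have : Nonempty ↥(convexHull ℝ (cls n J k)) :=
    (Set.Nonempty.mono (subset_convexHull ℝ _) (cls_nonempty hn k)).to_subtype
  have h1 := E2_mono_index (Finset.range (J + 1))
    (ev v (cls n J (k + 1)))
    (fun q a (s : ↥(convexHull ℝ (cls n J k))) => clip (2 * (1 / 2) ^ q) (2 * s.1 (v a)))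
    (fun t => t.2.choose) (fun t => t.2.choose_spec.1)
    (fun t => ⟨t.2.choose_spec.2.choose, t.2.choose_spec.2.choose_spec.1⟩)
    (fun t a => by
      have := t.2.choose_spec.2.choose_spec.2
      show 2 * t.1 (v a) = _
      conv_lhs => rw [this]
      simp only
      rw [two_mul_clip]) l (fun _ => 0) (fun _ _ => 0) (fun _ => rfl)
  refine h1.trans ?_
  have h2 : ∀ q ∈ Finset.range (J + 1),
      E2 (fun a (s : ↥(convexHull ℝ (cls n J k))) => clip (2 * (1 / 2) ^ q) (2 * s.1 (v a))) l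
        (fun _ => 0) ≤ E2 (ev v (cls n J k)) l (fun _ => 0) := by
    intro q _
    have h3 := E2_contr (shrink_clip (τ := 2 * (1 / 2) ^ q) (by positivity))
      (fun a (s : ↥(convexHull ℝ (cls n J k))) => 2 * s.1 (v a)) l (fun _ => 0)
    refine h3.trans ?_
    have h4 := E2_convexHull (cls n J k)
      (fun a => (2:ℝ) • (LinearMap.proj (v a) : ((Fin n → ℝ) → ℝ) →ₗ[ℝ] ℝ)) l 0
    change _ ≤ E2 (fun a (t : ↥(cls n J k)) => 2 * t.1 (v a)) l (fun _ => 0)
    simpa using h4
  calc _ ≤ ∑ _q ∈ Finset.range (J + 1), E2 (ev v (cls n J k)) l (fun _ => 0) :=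
        Finset.sum_le_sum h2
    _ = _ := by
      rw [Finset.sum_const, Finset.card_range, nsmul_eq_mul]

lemma mgf (hn : 0 < n) (v : ι → Fin n → ℝ) (l : List ι)
    (he : ∀ i, (l.map (fun a => v a i ^ 2)).sum ≤ 1) (k : ℕ) :
    E2 (ev v (cls n J k)) l (fun _ => 0) ≤
      ENNReal.ofReal (((J + 1 : ℕ) : ℝ) ^ k * (2 * n * Real.exp 2)) := by
  induction k with
  | zero => simpa using mgf_zero v l he
  | succ k ih =>
    refine (mgf_succ hn v l k).trans ?_
    calc _ ≤ (J + 1 : ℕ) * ENNReal.ofReal (((J + 1 : ℕ) : ℝ) ^ k * (2 * n * Real.exp 2)) := by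
          gcongr
      _ = _ := by
          rw [← ENNReal.ofReal_natCast, ← ENNReal.ofReal_mul (by positivity)]
          congr 1
          ring

end mgf

end Pool.Agent.DynBal
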