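import Mathlib

/-!
# Exponential contraction principle for suprema of random signed sums

`E2 c l u` is the average over independent signs `ε_a` (`a ∈ l`) of
`sup_t exp (u t + ∑ ε_a c a t)`, as an extended nonnegative real.
-/

open scoped ENNReal

namespace Pool.Agent.DynBal

/-- Odd monotone maps `φ` of the line such that `x - φ x` is monotone as well. -/
structure Shrink (φ : ℝ → ℝ) : Prop where
  odd : ∀ x, φ (-x) = - φ x
  mono : Monotone φ
  mono' : Monotone (fun x => x - φ x)

namespace Shrink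

variable {φ : ℝ → ℝ} (h : Shrink φ)
include h

lemma zero : φ 0 = 0 := by
  have := h.odd 0
  rw [neg_zero] at this
  linarith

lemma nonneg {x : ℝ} (hx : 0 ≤ x) : 0 ≤ φ x := by
  have := h.mono hx
  rwa [h.zero] at this

lemma le_self {x : ℝ} (hx : 0 ≤ x) : φ x ≤ x := by
  have := h.mono' hx
  simp only [h.zero] at this
  linarith

lemma nonpos {x : ℝ} (hx : x ≤ 0) : φ x ≤ 0 := by
  have := h.mono hx
  rwa [h.zero] at this

lemma self_le {x : ℝ} (hx : x ≤ 0) : x ≤ φ x := by
  have := h.mono' hx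
  simp only [h.zero] at this
  linarith

end Shrink

section two
open Real

lemma two_nonneg_aux {φ : ℝ → ℝ} (h : Shrink φ) {u1 u2 w1 w2 : ℝ} (h1 : 0 ≤ w1) (h2 : 0 ≤ w2)
    (hA : u2 + φ w2 ≤ u1 + φ w1) (hB : u1 - φ w1 ≤ u2 - φ w2) :
    exp (u1 + φ w1) + exp (u2 - φ w2) ≤
      max (exp (u1 + w1)) (exp (u2 + w2)) + max (exp (u1 - w1)) (exp (u2 - w2)) := by
  have p1 := h.nonneg h1
  have p2 := h.nonneg h2
  have q1 := h.le_self h1
  have q2 := h.le_self h2
  rcases le_total w2 w1 with hw | hw
  · have hm : w2 - φ w2 ≤ w1 - φ w1 := h.mono' hw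
    have e1 : exp (u2 - w2) ≤ exp (u1 + φ w1) := exp_le_exp.2 (by linarith)
    have e2 : exp (w2 - φ w2) - 1 ≤ exp (w1 - φ w1) - 1 := by
      have := exp_le_exp.2 hm
      linarith
    have e3 : 0 ≤ exp (w2 - φ w2) - 1 := by
      have : (1:ℝ) ≤ exp (w2 - φ w2) := one_le_exp (by linarith)
      linarith
    have e4 := mul_le_mul e1 e2 e3 (exp_pos _).le
    have f1 : exp (u2 - w2) * (exp (w2 - φ w2) - 1) = exp (u2 - φ w2) - exp (u2 - w2) := by
      rw [mul_sub, ← exp_add, mul_one]
      congr 2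
      ring
    have f2 : exp (u1 + φ w1) * (exp (w1 - φ w1) - 1) = exp (u1 + w1) - exp (u1 + φ w1) := by
      rw [mul_sub, ← exp_add, mul_one]
      congr 2
      ring
    have g1 := le_max_left (exp (u1 + w1)) (exp (u2 + w2))
    have g2 := le_max_right (exp (u1 - w1)) (exp (u2 - w2))
    rw [f1, f2] at e4
    linarith
  · have hm : w1 + φ w1 ≤ w2 + φ w2 := by
      have := h.mono hw
      linarith
    have e1 : exp (u1 - w1) ≤ exp (u2 - φ w2) := exp_le_exp.2 (by linarith)
    have e2 : exp (w1 + φ w1) - 1 ≤ exp (w2 + φ w2) - 1 := by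
      have := exp_le_exp.2 hm
      linarith
    have e3 : 0 ≤ exp (w1 + φ w1) - 1 := by
      have : (1:ℝ) ≤ exp (w1 + φ w1) := one_le_exp (by linarith)
      linarith
    have e4 := mul_le_mul e1 e2 e3 (exp_pos _).le
    have f1 : exp (u1 - w1) * (exp (w1 + φ w1) - 1) = exp (u1 + φ w1) - exp (u1 - w1) := by
      rw [mul_sub, ← exp_add, mul_one]
      congr 2
      ring
    have f2 : exp (u2 - φ w2) * (exp (w2 + φ w2) - 1) = exp (u2 + w2) - exp (u2 - φ w2) := by
      rw [mul_sub, ← exp_add, mul_one]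
      congr 2
      ring
    have g1 := le_max_right (exp (u1 + w1)) (exp (u2 + w2))
    have g2 := le_max_left (exp (u1 - w1)) (exp (u2 - w2))
    rw [f1, f2] at e4
    linarith

lemma one_point {φ : ℝ → ℝ} (h : Shrink φ) {u w : ℝ} (hw : 0 ≤ w) :
    exp (u + φ w) + exp (u - φ w) ≤ exp (u + w) + exp (u - w) := by
  have := two_nonneg_aux h (u1 := u) (u2 := u) hw hw le_rfl le_rfl
  simpa using this

lemma two_nonneg {φ : ℝ → ℝ} (h : Shrink φ) {u1 u2 w1 w2 : ℝ} (h1 : 0 ≤ w1) (h2 : 0 ≤ w2) :
    exp (u1 + φ w1) + exp (u2 - φ w2) ≤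
      max (exp (u1 + w1)) (exp (u2 + w2)) + max (exp (u1 - w1)) (exp (u2 - w2)) := by
  have gl1 := le_max_left (exp (u1 + w1)) (exp (u2 + w2))
  have gr1 := le_max_right (exp (u1 + w1)) (exp (u2 + w2))
  have gl2 := le_max_left (exp (u1 - w1)) (exp (u2 - w2))
  have gr2 := le_max_right (exp (u1 - w1)) (exp (u2 - w2))
  rcases le_total (u2 + φ w2) (u1 + φ w1) with hA | hA
  · rcases le_total (u1 - φ w1) (u2 - φ w2) with hB | hB
    · exact two_nonneg_aux h h1 h2 hA hB
    · have := one_point h (u := u1) h1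
      have e : exp (u2 - φ w2) ≤ exp (u1 - φ w1) := exp_le_exp.2 hB
      linarith
  · rcases le_total (u1 - φ w1) (u2 - φ w2) with hB | hB
    · have := one_point h (u := u2) h2
      have e : exp (u1 + φ w1) ≤ exp (u2 + φ w2) := exp_le_exp.2 hA
      linarith
    · have := two_nonneg_aux h (u1 := u2) (u2 := u1) h2 h1 hA hB
      have e : exp (u1 + φ w1) ≤ exp (u2 + φ w2) := exp_le_exp.2 hA
      have e' : exp (u2 - φ w2) ≤ exp (u1 - φ w1) := exp_le_exp.2 hB
      rw [max_comm (exp (u2 + w2)), max_comm (exp (u2 - w2))] at this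
      linarith

lemma two_point {φ : ℝ → ℝ} (h : Shrink φ) (u1 u2 w1 w2 : ℝ) :
    exp (u1 + φ w1) + exp (u2 - φ w2) ≤
      max (exp (u1 + w1)) (exp (u2 + w2)) + max (exp (u1 - w1)) (exp (u2 - w2)) := by
  have gl1 := le_max_left (exp (u1 + w1)) (exp (u2 + w2))
  have gr1 := le_max_right (exp (u1 + w1)) (exp (u2 + w2))
  have gl2 := le_max_left (exp (u1 - w1)) (exp (u2 - w2))
  have gr2 := le_max_right (exp (u1 - w1)) (exp (u2 - w2))
  rcases le_total 0 w1 with h1 | h1
  · rcases le_total 0 w2 with h2 | h2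
    · exact two_nonneg h h1 h2
    · have a1 : exp (u1 + φ w1) ≤ exp (u1 + w1) := exp_le_exp.2 (by linarith [h.le_self h1])
      have a2 : exp (u2 - φ w2) ≤ exp (u2 - w2) := exp_le_exp.2 (by linarith [h.self_le h2])
      linarith
  · rcases le_total 0 w2 with h2 | h2
    · have a1 : exp (u1 + φ w1) ≤ exp (u1 - w1) := exp_le_exp.2 (by linarith [h.nonpos h1])
      have a2 : exp (u2 - φ w2) ≤ exp (u2 + w2) := exp_le_exp.2 (by linarith [h.nonneg h2])
      linarith
    · have := two_nonneg h (u1 := u2) (u2 := u1) (w1 := -w2) (w2 := -w1)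
        (by linarith) (by linarith)
      rw [h.odd, h.odd, sub_neg_eq_add, sub_neg_eq_add, sub_neg_eq_add, ← sub_eq_add_neg,
        ← sub_eq_add_neg, ← sub_eq_add_neg, max_comm (exp (u2 - w2)),
        max_comm (exp (u2 + w2))] at this
      linarith

end two

variable {ι T : Type*}

/-- average over signs on the list `l` of `sup_t exp (u t + ∑ ε_a c a t)` -/
noncomputable def E2 (c : ι → T → ℝ) : List ι → (T → ℝ) → ℝ≥0∞
  | [], u => ⨆ t, ENNReal.ofReal (Real.exp (u t))
  | a :: l, u => (E2 c l (fun t => u t + c a t) + E2 c l (fun t => u t - c a t)) / 2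

lemma sup_two_point [Nonempty T] {φ : ℝ → ℝ} (h : Shrink φ) (u w : T → ℝ) :
    (⨆ t, ENNReal.ofReal (Real.exp (u t + φ (w t)))) +
      (⨆ t, ENNReal.ofReal (Real.exp (u t - φ (w t)))) ≤
    (⨆ t, ENNReal.ofReal (Real.exp (u t + w t))) +
      (⨆ t, ENNReal.ofReal (Real.exp (u t - w t))) := by
  refine ENNReal.iSup_add_iSup_le fun t1 t2 => ?_
  rw [← ENNReal.ofReal_add (Real.exp_pos _).le (Real.exp_pos _).le]
  refine (ENNReal.ofReal_le_ofReal (two_point h (u t1) (u t2) (w t1) (w t2))).trans ?_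
  rw [ENNReal.ofReal_add (le_max_of_le_left (Real.exp_pos _).le)
    (le_max_of_le_left (Real.exp_pos _).le)]
  gcongr
  · rcases max_choice (Real.exp (u t1 + w t1)) (Real.exp (u t2 + w t2)) with hm | hm
    · rw [hm]
      exact le_iSup (fun t => ENNReal.ofReal (Real.exp (u t + w t))) t1
    · rw [hm]
      exact le_iSup (fun t => ENNReal.ofReal (Real.exp (u t + w t))) t2
  · rcases max_choice (Real.exp (u t1 - w t1)) (Real.exp (u t2 - w t2)) with hm | hm
    · rw [hm]
      exact le_iSup (fun t => ENNReal.ofReal (Real.exp (u t - w t))) t1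
    · rw [hm]
      exact le_iSup (fun t => ENNReal.ofReal (Real.exp (u t - w t))) t2

lemma E2_two_point [Nonempty T] {φ : ℝ → ℝ} (h : Shrink φ) (c : ι → T → ℝ) (l : List ι)
    (u w : T → ℝ) :
    E2 c l (fun t => u t + φ (w t)) + E2 c l (fun t => u t - φ (w t)) ≤
      E2 c l (fun t => u t + w t) + E2 c l (fun t => u t - w t) := by
  induction l generalizing u with
  | nil => exact sup_two_point h u w
  | cons a l ih =>
    simp only [E2]
    have i1 := ih (fun t => u t + c a t)
    have i2 := ih (fun t => u t - c a t)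
    have r1 : (fun t => u t + φ (w t) + c a t) = fun t => u t + c a t + φ (w t) := by
      funext t; ring
    have r2 : (fun t => u t + φ (w t) - c a t) = fun t => u t - c a t + φ (w t) := by
      funext t; ring
    have r3 : (fun t => u t - φ (w t) + c a t) = fun t => u t + c a t - φ (w t) := by
      funext t; ring
    have r4 : (fun t => u t - φ (w t) - c a t) = fun t => u t - c a t - φ (w t) := by
      funext t; ring
    have r5 : (fun t => u t + w t + c a t) = fun t => u t + c a t + w t := by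
      funext t; ring
    have r6 : (fun t => u t + w t - c a t) = fun t => u t - c a t + w t := by
      funext t; ring
    have r7 : (fun t => u t - w t + c a t) = fun t => u t + c a t - w t := by
      funext t; ring
    have r8 : (fun t => u t - w t - c a t) = fun t => u t - c a t - w t := by
      funext t; ring
    rw [r1, r2, r3, r4, r5, r6, r7, r8]
    rw [← ENNReal.add_div, ← ENNReal.add_div]
    gcongr ?_ / 2
    calc _ = (E2 c l (fun t => u t + c a t + φ (w t)) + E2 c l (fun t => u t + c a t - φ (w t)))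
          + (E2 c l (fun t => u t - c a t + φ (w t)) + E2 c l (fun t => u t - c a t - φ (w t))) := by
            ring
      _ ≤ (E2 c l (fun t => u t + c a t + w t) + E2 c l (fun t => u t + c a t - w t))
          + (E2 c l (fun t => u t - c a t + w t) + E2 c l (fun t => u t - c a t - w t)) :=
            add_le_add i1 i2
      _ = _ := by ring

/-- the contraction principle -/
lemma E2_contr [Nonempty T] {φ : ℝ → ℝ} (h : Shrink φ) (c : ι → T → ℝ) (l : List ι)
    (u : T → ℝ) :
    E2 (fun a t => φ (c a t)) l u ≤ E2 c l u := by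
  induction l generalizing u with
  | nil => exact le_rfl
  | cons a l ih =>
    simp only [E2]
    gcongr ?_ / 2
    calc _ ≤ E2 c l (fun t => u t + φ (c a t)) + E2 c l (fun t => u t - φ (c a t)) :=
          add_le_add (ih _) (ih _)
      _ ≤ _ := E2_two_point h c l u (c a)

end Pool.Agent.DynBal
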