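import Pool.Agent.DynBal.Chain

/-!
# Discrepancy and recourse of the dynamic algorithm
-/

set_option autoImplicit false

namespace Pool.Agent.DynBal

variable {n : ℕ}

lemma disc_bound {L : ℕ} (hn : 0 < n) {r : Fin n → ℝ} (hr : ∀ i, 1 ≤ r i)
    (h : List (Update n)) (hh : OK r h) (hlen : h.length < 2 ^ L) (i : Fin n) :
    |∑ a ∈ active h, node L r L h a * vec h a i| ≤ r i * (L * (nu L n + 1)) := by
  obtain ⟨-, hg⟩ := node_inv hn hr L le_rfl h hh hlen (by simp)
  rw [Nat.sub_self] at hg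
  have hl : lam L n 0 = L * (nu L n + 1) := by
    unfold lam
    simp
  rw [hl] at hg
  have hri : 0 < r i := lt_of_lt_of_le one_pos (hr i)
  have e : ∑ a ∈ active h, node L r L h a * vec h a i =
      r i * ∑ a ∈ active h, node L r L h a * sv r h a i := by
    rw [Finset.mul_sum]
    refine Finset.sum_congr rfl fun a _ => ?_
    unfold sv
    field_simp
  rw [e, abs_mul, abs_of_pos hri]
  gcongr
  rw [abs_le]
  constructor
  · have h1 := hg (fun a => (if false then 1 else -1) * a i) ⟨i, false, rfl⟩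
    have h2 : ∑ a ∈ active h, node L r L h a * ((if false then (1:ℝ) else -1) * sv r h a i) =
        - ∑ a ∈ active h, node L r L h a * sv r h a i := by
      rw [← Finset.sum_neg_distrib]
      refine Finset.sum_congr rfl fun a _ => ?_
      simp
    rw [h2] at h1
    linarith
  · have h1 := hg (fun a => (if true then 1 else -1) * a i) ⟨i, true, rfl⟩
    simpa using h1

/-- distance of two signings on a finite set of names -/
noncomputable def sdist (S : Finset ℕ) (s s' : ℕ → ℝ) : ℝ := ∑ a ∈ S, |s a - s' a|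

lemma sdist_triangle (S : Finset ℕ) (s s' s'' : ℕ → ℝ) :
    sdist S s s'' ≤ sdist S s s' + sdist S s' s'' := by
  unfold sdist
  rw [← Finset.sum_add_distrib]
  exact Finset.sum_le_sum fun a _ => abs_sub_le _ _ _

lemma sdist_comm (S : Finset ℕ) (s s' : ℕ → ℝ) : sdist S s s' = sdist S s' s := by
  unfold sdist
  exact Finset.sum_congr rfl fun a _ => abs_sub_comm _ _

lemma sdist_self (S : Finset ℕ) (s : ℕ → ℝ) : sdist S s s = 0 := by
  simp [sdist]

lemma StepSpec.sdist_le {L : ℕ} {r : Fin n → ℝ} {k : ℕ} {h : List (Update n)} {s0 s : ℕ → ℝ}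
    (hs : StepSpec L r k h s0 s) (S : Finset ℕ) : sdist S s s0 ≤ 6 * 2 ^ k := by
  classical
  refine le_trans ?_ hs.2.2.1
  unfold sdist
  calc ∑ a ∈ S, |s a - s0 a| = ∑ a ∈ S ∩ active h, |s a - s0 a| := by
        symm
        refine Finset.sum_subset Finset.inter_subset_left fun a ha hna => ?_
        have : a ∉ active h := fun h1 => hna (Finset.mem_inter.2 ⟨ha, h1⟩)
        rw [hs.2.1 a this, sub_self, abs_zero]
    _ ≤ _ := Finset.sum_le_sum_of_subset_of_nonneg Finset.inter_subset_right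
        (fun _ _ _ => abs_nonneg _)

lemma node_succ_of_dvd {L : ℕ} {r : Fin n → ℝ} {k : ℕ} (hk : k < L) {h : List (Update n)}
    (hd : 2 ^ (k + 1) ∣ h.length) : node L r (L - k) h = node L r (L - (k + 1)) h := by
  obtain ⟨d, hd'⟩ : ∃ d, L - k = d + 1 := ⟨L - k - 1, by omega⟩
  have h1 : L - (k + 1) = d := by omega
  have h2 : L - d = k + 1 := by omega
  rw [hd', h1]
  show (if 2 ^ (L - d) ∣ h.length then node L r d h else _) = _
  rw [h2, if_pos hd]

lemma node_succ_of_not_dvd {L : ℕ} {r : Fin n → ℝ} {k : ℕ} (hk : k < L) {h : List (Update n)}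
    (hd : ¬ 2 ^ (k + 1) ∣ h.length) :
    node L r (L - k) h = next L r k h (node L r (L - (k + 1)) (h.drop (2 ^ k))) := by
  obtain ⟨d, hd'⟩ : ∃ d, L - k = d + 1 := ⟨L - k - 1, by omega⟩
  have h1 : L - (k + 1) = d := by omega
  have h2 : L - d = k + 1 := by omega
  have h3 : L - (d + 1) = k := by omega
  rw [hd', h1]
  show (if 2 ^ (L - d) ∣ h.length then node L r d h else
    next L r (L - (d + 1)) h (node L r d (h.drop (2 ^ (L - (d + 1)))))) = _
  rw [h2, if_neg hd, h3]

lemma step_dist {L : ℕ} (hn : 0 < n) {r : Fin n → ℝ} (hr : ∀ i, 1 ≤ r i)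
    (h : List (Update n)) (hh : OK r h) (hlen : h.length < 2 ^ L) {k : ℕ} (hk : k < L)
    (h1 : 2 ^ k ∣ h.length) (h2 : ¬ 2 ^ (k + 1) ∣ h.length) (S : Finset ℕ) :
    sdist S (node L r (L - k) h) (node L r (L - (k + 1)) (h.drop (2 ^ k))) ≤ 6 * 2 ^ k := by
  rw [node_succ_of_not_dvd hk h2]
  obtain ⟨j1, j2⟩ := dvd_sub_pow h1 h2
  have hk' : L - (L - (k + 1)) = k + 1 := by omega
  obtain ⟨i1, i2⟩ := node_inv (L := L) hn hr (L - (k + 1)) (by omega) (h.drop (2 ^ k)) (hh.drop _)
    (by rw [List.length_drop]; omega) (by rw [List.length_drop, hk']; exact j2)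
  rw [hk'] at i2
  exact (next_spec (L := L) hn hr (by omega) hh rfl i1 i2).sdist_le S

lemma node_eq_of_dvd {L : ℕ} {r : Fin n → ℝ} {j : ℕ} (hj : j ≤ L) {h : List (Update n)}
    (hd : 2 ^ j ∣ h.length) : node L r L h = node L r (L - j) h := by
  induction j with
  | zero => rw [Nat.sub_zero]
  | succ j ih =>
    rw [ih (by omega) (dvd_trans (pow_dvd_pow 2 (Nat.le_succ j)) hd)]
    exact node_succ_of_dvd (by omega) hd

lemma chain_dist {L : ℕ} (hn : 0 < n) {r : Fin n → ℝ} (hr : ∀ i, 1 ≤ r i)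
    (h : List (Update n)) (hh : OK r h) (hlen : h.length < 2 ^ L) {j : ℕ} (hj : j < L)
    (h1 : 2 ^ j ∣ h.length) (h0 : 0 < h.length) (S : Finset ℕ) (i : ℕ) (hi : i ≤ j) :
    sdist S (node L r L (h.drop 1)) (node L r (L - i) (h.drop (2 ^ i))) ≤ 6 * (2 ^ i - 1) := by
  induction i with
  | zero => simp [sdist_self]
  | succ i ih =>
    have hjt : 2 ^ j ≤ h.length := Nat.le_of_dvd h0 h1
    have hi1 : 2 ^ (i + 1) ∣ h.length := dvd_trans (pow_dvd_pow 2 hi) h1
    have hi0 : 2 ^ i ∣ h.length := dvd_trans (pow_dvd_pow 2 (by omega)) h1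
    have hile : 2 ^ (i + 1) ≤ h.length := (Nat.pow_le_pow_right (by norm_num) hi).trans hjt
    have hpow : 2 ^ (i + 1) = 2 ^ i + 2 ^ i := by rw [pow_succ]; ring
    have e1 : (h.drop (2 ^ i)).length = h.length - 2 ^ i := List.length_drop
    have d1 : 2 ^ i ∣ (h.drop (2 ^ i)).length := by
      rw [e1]
      exact Nat.dvd_sub hi0 (dvd_refl _)
    have d2 : ¬ 2 ^ (i + 1) ∣ (h.drop (2 ^ i)).length := by
      rw [e1]
      intro hc
      have h3 : 2 ^ (i + 1) ∣ h.length - (h.length - 2 ^ i) := Nat.dvd_sub hi1 hc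
      have h4 : h.length - (h.length - 2 ^ i) = 2 ^ i := by omega
      rw [h4] at h3
      have := Nat.le_of_dvd (by positivity) h3
      have : 0 < 2 ^ i := by positivity
      omega
    have hs := step_dist (L := L) hn hr (h.drop (2 ^ i)) (hh.drop _) (by rw [e1]; omega) (k := i)
      (by omega) d1 d2 S
    have e2 : (h.drop (2 ^ i)).drop (2 ^ i) = h.drop (2 ^ (i + 1)) := by
      rw [List.drop_drop, hpow]
    rw [e2] at hs
    have := sdist_triangle S (node L r L (h.drop 1)) (node L r (L - i) (h.drop (2 ^ i)))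
      (node L r (L - (i + 1)) (h.drop (2 ^ (i + 1))))
    have ih' := ih (by omega)
    have hp : (2:ℝ) ^ (i + 1) = 2 * 2 ^ i := by rw [pow_succ]; ring
    linarith

lemma consecutive_dist {L : ℕ} (hn : 0 < n) {r : Fin n → ℝ} (hr : ∀ i, 1 ≤ r i)
    (h : List (Update n)) (hh : OK r h) (hlen : h.length < 2 ^ L) {j : ℕ}
    (h1 : 2 ^ j ∣ h.length) (h2 : ¬ 2 ^ (j + 1) ∣ h.length) (h0 : 0 < h.length) (S : Finset ℕ) :
    sdist S (node L r L h) (node L r L (h.drop 1)) ≤ 12 * 2 ^ j := by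
  have hjt : 2 ^ j ≤ h.length := Nat.le_of_dvd h0 h1
  have hj : j < L := (Nat.pow_lt_pow_iff_right (by norm_num : 1 < 2)).1 (lt_of_le_of_lt hjt hlen)
  obtain ⟨j1, j2⟩ := dvd_sub_pow h1 h2
  have a1 := step_dist (L := L) hn hr h hh hlen hj h1 h2 S
  have a2 := chain_dist (L := L) hn hr h hh hlen hj h1 h0 S j le_rfl
  rw [node_eq_of_dvd hj.le h1]
  have e : node L r (L - j) (h.drop (2 ^ j)) = node L r (L - (j + 1)) (h.drop (2 ^ j)) :=
    node_succ_of_dvd hj (by rw [List.length_drop]; exact j2)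
  rw [e] at a2
  have a3 := sdist_triangle S (node L r (L - j) h) (node L r (L - (j + 1)) (h.drop (2 ^ j)))
    (node L r L (h.drop 1))
  rw [sdist_comm S (node L r (L - (j + 1)) (h.drop (2 ^ j)))] at a3
  linarith

/-- the algorithm -/
noncomputable def alg (L : ℕ) (r : Fin n → ℝ) : Algorithm n :=
  fun h a => by classical exact decide (node L r L h a = 1)

lemma sgn_alg {L : ℕ} {r : Fin n → ℝ} {h : List (Update n)}
    (hs : ∀ a, node L r L h a = 1 ∨ node L r L h a = -1) (a : ℕ) :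
    sgn (alg L r h a) = node L r L h a := by
  unfold sgn alg
  rcases hs a with h1 | h1
  · simp [h1]
  · have : ¬ ((-1:ℝ) = 1) := by norm_num
    simp [h1, this]

lemma recourse_le {L : ℕ} (hn : 0 < n) {r : Fin n → ℝ} (hr : ∀ i, 1 ≤ r i)
    (u : Update n) (h : List (Update n)) (hh : OK r (u :: h)) (hlen : (u :: h).length < 2 ^ L)
    {j : ℕ} (h1 : 2 ^ j ∣ (u :: h).length) (h2 : ¬ 2 ^ (j + 1) ∣ (u :: h).length) :
    (recourse h (u :: h) (alg L r h) (alg L r (u :: h)) : ℝ) ≤ 6 * 2 ^ j := by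
  classical
  have i1 := (node_inv hn hr L le_rfl (u :: h) hh hlen (by simp)).1
  have hh' : OK r h := hh.drop 1
  have i2 := (node_inv hn hr L le_rfl h hh' (by
    rw [List.length_cons] at hlen
    omega) (by simp)).1
  have key := consecutive_dist hn hr (u :: h) hh hlen h1 h2 (by simp)
    ((active h ∩ active (u :: h)).filter (fun t => alg L r h t ≠ alg L r (u :: h) t))
  have e1 : (u :: h).drop 1 = h := rfl
  rw [e1] at key
  have e2 : 2 * (recourse h (u :: h) (alg L r h) (alg L r (u :: h)) : ℝ) ≤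
      sdist ((active h ∩ active (u :: h)).filter (fun t => alg L r h t ≠ alg L r (u :: h) t))
        (node L r L (u :: h)) (node L r L h) := by
    unfold recourse sdist
    rw [Finset.card_eq_sum_ones, Nat.cast_sum, Finset.mul_sum]
    refine Finset.sum_le_sum fun a ha => ?_
    have hne := (Finset.mem_filter.1 ha).2
    have s1 := sgn_alg i1 a
    have s2 := sgn_alg i2 a
    rw [← s1, ← s2]
    unfold sgn
    cases h3 : alg L r h a <;> cases h4 : alg L r (u :: h) a
    · rw [h3, h4] at hne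
      exact absurd rfl hne
    · norm_num
    · norm_num
    · rw [h3, h4] at hne
      exact absurd rfl hne
  linarith

lemma sum_pow_dvd (T L : ℕ) :
    ∑ t ∈ Finset.range T, ∑ i ∈ Finset.range L, (if 2 ^ i ∣ t + 1 then 2 ^ i else 0) ≤ T * L := by
  rw [Finset.sum_comm]
  calc ∑ i ∈ Finset.range L, ∑ t ∈ Finset.range T, (if 2 ^ i ∣ t + 1 then 2 ^ i else 0)
      ≤ ∑ _i ∈ Finset.range L, T := by
        refine Finset.sum_le_sum fun i _ => ?_
        rw [← Finset.sum_filter, Finset.sum_const, smul_eq_mul, Nat.card_multiples]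
        exact Nat.div_mul_le_self _ _
    _ = T * L := by rw [Finset.sum_const, Finset.card_range, smul_eq_mul, mul_comm]

end Pool.Agent.DynBal
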