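import Pool.Agent.DynBal.Round

/-!
# The fractional repair step
-/

namespace Pool.Agent.DynBal

/-- A minimax statement: if every convex combination of the linear conditions can be met
in the compact convex set `X`, then all conditions can be met simultaneously. -/
lemma minimax_fin {E W : Type*} [AddCommGroup E] [Module ℝ E] [TopologicalSpace E]
    [AddCommGroup W] [Module ℝ W] (L : W →ₗ[ℝ] (E →L[ℝ] ℝ))
    {X : Set E} (hXc : Convex ℝ X) (hXk : IsCompact X) (hXn : X.Nonempty) (H : Set W) (c : ℝ)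
    (h : ∀ g ∈ convexHull ℝ H, ∃ y ∈ X, L g y ≤ c) : ∃ y ∈ X, ∀ g ∈ H, L g y ≤ c := by
  classical
  by_contra hcon
  push Not at hcon
  -- finite subcover
  obtain ⟨t, ht⟩ := hXk.elim_finite_subcover (fun g : ↥H => {y : E | c < L g.1 y})
    (fun g => isOpen_lt continuous_const (L g.1).continuous)
    (fun y hy => by
      obtain ⟨g, hg, hlt⟩ := hcon y hy
      exact Set.mem_iUnion.2 ⟨⟨g, hg⟩, hlt⟩)
  let Φ : E →ₗ[ℝ] (↥t → ℝ) :=
    { toFun := fun y g => L g.1.1 y
      map_add' := fun x y => by funext g; simp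
      map_smul' := fun r y => by funext g; simp }
  have hΦc : Continuous Φ := by
    refine continuous_pi fun g => ?_
    exact (L g.1.1).continuous
  have hK1 : Convex ℝ (Φ '' X) := hXc.linear_image Φ
  have hK2 : IsCompact (Φ '' X) := hXk.image hΦc
  have hN1 : Convex ℝ {z : ↥t → ℝ | ∀ g, z g ≤ c} := by
    intro x hx y hy α β hα hβ hab g
    have h1 := hx g
    have h2 := hy g
    calc (α • x + β • y) g = α * x g + β * y g := by simp
      _ ≤ α * c + β * c := by gcongr
      _ = c := by rw [← add_mul, hab, one_mul]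
  have hN2 : IsClosed {z : ↥t → ℝ | ∀ g, z g ≤ c} := by
    have : {z : ↥t → ℝ | ∀ g, z g ≤ c} = ⋂ g, {z : ↥t → ℝ | z g ≤ c} := by
      ext z
      simp
    rw [this]
    exact isClosed_iInter fun g => isClosed_le (continuous_apply g) continuous_const
  have hdisj : Disjoint (Φ '' X) {z : ↥t → ℝ | ∀ g, z g ≤ c} := by
    rw [Set.disjoint_left]
    rintro _ ⟨y, hy, rfl⟩ hz
    obtain ⟨g, hg, hlt⟩ := Set.mem_iUnion₂.1 (ht hy)
    exact absurd (hz ⟨g, hg⟩) (not_le.2 hlt)
  obtain ⟨f, u, v, hf1, huv, hf2⟩ := geometric_hahn_banach_compact_closed hK1 hK2 hN1 hN2 hdisj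
  set μ : ↥t → ℝ := fun g => - f (Pi.single g 1) with hμ
  have hfz : ∀ z : ↥t → ℝ, f z = - ∑ g, z g * μ g := by
    intro z
    have : f z = ∑ g, z g • f (Pi.single g 1) := by
      have h0 := LinearMap.pi_apply_eq_sum_univ (f : (↥t → ℝ) →ₗ[ℝ] ℝ) z
      have h1 : ∀ g : ↥t, (fun j => if g = j then (1:ℝ) else 0) = Pi.single g 1 := by
        intro g
        funext j
        simp [Pi.single_apply, eq_comm]
      simp only [h1] at h0
      exact h0
    rw [this, ← Finset.sum_neg_distrib]
    refine Finset.sum_congr rfl fun g _ => ?_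
    rw [hμ]
    simp
  have hμ0 : ∀ g, 0 ≤ μ g := by
    intro g
    by_contra hneg
    push Not at hneg
    -- move far in the direction -e_g
    set R : ℝ := (|f (fun _ => c)| + |v| + 1) / (-μ g) with hR
    have hRpos : 0 ≤ R := div_nonneg (by positivity) (by linarith)
    have hmem : (fun j => c - (if j = g then R else 0)) ∈ {z : ↥t → ℝ | ∀ g, z g ≤ c} := by
      intro j
      show c - (if j = g then R else 0) ≤ c
      split_ifs <;> linarith
    have h1 := hf2 _ hmem
    rw [hfz] at h1
    have h2 : ∑ j, (c - (if j = g then R else 0)) * μ j = ∑ j, c * μ j - R * μ g := by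
      simp only [sub_mul, ite_mul, zero_mul, Finset.sum_sub_distrib, Finset.sum_ite_eq',
        Finset.mem_univ, if_true]
    rw [h2] at h1
    have h3 := hfz (fun _ => c)
    have h4 : R * (-μ g) = |f (fun _ => c)| + |v| + 1 := by
      rw [hR, div_mul_cancel₀]
      linarith
    have h5 := le_abs_self (f (fun _ => c))
    have h6 := neg_abs_le v
    linarith
  have hc1 : v < - ∑ g, c * μ g := by
    have := hf2 (fun _ => c) (fun _ => le_rfl)
    rwa [hfz] at this
  have hy1 : ∀ y ∈ X, c * ∑ g, μ g < ∑ g : ↥t, L g.1.1 y * μ g := by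
    intro y hy
    have := hf1 (Φ y) ⟨y, hy, rfl⟩
    rw [hfz] at this
    have h7 : (∑ g : ↥t, (Φ y) g * μ g) = ∑ g : ↥t, L g.1.1 y * μ g := rfl
    rw [h7] at this
    rw [← Finset.mul_sum] at hc1
    linarith
  have hs : 0 < ∑ g, μ g := by
    rcases (Finset.sum_nonneg fun g (_ : g ∈ Finset.univ) => hμ0 g).lt_or_eq with hlt | heq
    · exact hlt
    · exfalso
      have hall : ∀ g, μ g = 0 := fun g =>
        (Finset.sum_eq_zero_iff_of_nonneg fun g _ => hμ0 g).1 heq.symm g (Finset.mem_univ g)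
      obtain ⟨y, hy⟩ := hXn
      have := hy1 y hy
      simp [hall] at this
  have hg : ∑ g : ↥t, (μ g / ∑ g, μ g) • g.1.1 ∈ convexHull ℝ H := by
    refine (convex_convexHull ℝ H).sum_mem (fun g _ => div_nonneg (hμ0 g) hs.le) ?_
      (fun g _ => subset_convexHull ℝ H g.1.2)
    rw [← Finset.sum_div, div_self hs.ne']
  obtain ⟨y, hy, hle⟩ := h _ hg
  have h8 := hy1 y hy
  rw [map_sum, _root_.sum_apply] at hle
  have h9 : ∑ g : ↥t, (L ((μ g / ∑ g, μ g) • g.1.1)) y = (∑ g : ↥t, L g.1.1 y * μ g) / ∑ g, μ g := by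
    rw [Finset.sum_div]
    refine Finset.sum_congr rfl fun g _ => ?_
    rw [map_smul, _root_.smul_apply, smul_eq_mul]
    ring
  rw [h9, div_le_iff₀ hs] at hle
  linarith

section fix

variable {ι : Type*}

/-- real sign -/
noncomputable def sg (y : ℝ) : ℝ := if 0 ≤ y then 1 else -1

lemma sg_cases (y : ℝ) : sg y = 1 ∨ sg y = -1 := by
  unfold sg
  split_ifs <;> simp

lemma sg_mul (y : ℝ) : sg y * y = |y| := by
  unfold sg
  split_ifs with h
  · rw [one_mul, abs_of_nonneg h]
  · rw [abs_of_neg (not_le.1 h)]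
    ring

lemma one_add_sg_mul_nonneg {x y : ℝ} (hx : |x| ≤ 1) : 0 ≤ 1 + sg y * x := by
  obtain ⟨h1, h2⟩ := abs_le.1 hx
  rcases sg_cases y with h | h <;> rw [h] <;> linarith

lemma abs_add_sg {x y : ℝ} (hx : |x| ≤ 1) : |x + sg y| = 1 + sg y * x := by
  obtain ⟨h1, h2⟩ := abs_le.1 hx
  rcases sg_cases y with h | h <;> rw [h]
  · rw [abs_of_nonneg (by linarith)]
    ring
  · rw [abs_of_nonpos (by linarith)]
    ring

lemma mul_clip_of_lt {x y τ : ℝ} (h0 : 0 ≤ τ) (h : τ < |y|) :
    x * clip τ y = τ * (sg y * x) := by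
  unfold sg
  split_ifs with hy
  · rw [abs_of_nonneg hy] at h
    rw [clip_of_le h0 h.le]
    ring
  · rw [abs_of_neg (not_le.1 hy)] at h
    rw [clip_of_le_neg h0 (by linarith)]
    ring

lemma neg_le_sg_mul {x y : ℝ} (hx : |x| ≤ 1) : -1 ≤ sg y * x := by
  have := one_add_sg_mul_nonneg (y := y) hx
  linarith

/-- the cost of moving every element with `|h a| > τ` to the sign opposite to `h a` -/
noncomputable def mcost (B : Finset ι) (x h : ι → ℝ) (τ : ℝ) : ℝ :=
  ∑ a ∈ B, if τ < |h a| then 1 + sg (h a) * x a else 0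

lemma sum_sub_le [DecidableEq ι] {A B : Finset ι} (hBA : B ⊆ A) {M Λ τ : ℝ} (hτ : 0 ≤ τ)
    {x h : ι → ℝ} (hcard : ((A \ B).card : ℝ) ≤ M) (hx : ∀ a ∈ A, |x a| ≤ 1)
    (hΛ : ∑ a ∈ A, x a * clip τ (h a) ≤ Λ) :
    ∑ a ∈ B, x a * clip τ (h a) ≤ Λ + M * τ := by
  have h1 : ∑ a ∈ A, x a * clip τ (h a) =
      ∑ a ∈ A \ B, x a * clip τ (h a) + ∑ a ∈ B, x a * clip τ (h a) :=
    (Finset.sum_sdiff hBA).symm
  have h2 : -((A \ B).card * τ) ≤ ∑ a ∈ A \ B, x a * clip τ (h a) := by
    have : ∀ a ∈ A \ B, -τ ≤ x a * clip τ (h a) := by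
      intro a ha
      have h3 := hx a (Finset.mem_sdiff.1 ha).1
      have h4 : |x a * clip τ (h a)| ≤ 1 * τ := by
        rw [abs_mul]
        exact mul_le_mul h3 (abs_clip_le hτ) (abs_nonneg _) (by norm_num)
      have := (abs_le.1 h4).1
      linarith
    have h5 := Finset.card_nsmul_le_sum (A \ B) (fun a => x a * clip τ (h a)) (-τ) this
    rw [nsmul_eq_mul] at h5
    linarith
  have h6 : ((A \ B).card : ℝ) * τ ≤ M * τ := by gcongr
  linarith

lemma fix_one [DecidableEq ι] {A B : Finset ι} (hBA : B ⊆ A) {M Λ : ℝ} {J : ℕ}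
    {x h : ι → ℝ} (hcard : ((A \ B).card : ℝ) ≤ M) (hx : ∀ a ∈ A, |x a| ≤ 1)
    (hh : ∀ a ∈ A, |h a| ≤ 1)
    (hΛ : ∀ q ≤ J, ∑ a ∈ A, x a * clip ((1 / 2) ^ q) (h a) ≤ Λ) :
    ∃ y : ι → ℝ, (∀ a ∈ B, |y a| ≤ 1) ∧ (∀ a, a ∉ B → y a = 0) ∧
      ∑ a ∈ B, |y a - x a| ≤ 2 * M ∧ ∑ a ∈ B, y a * h a ≤ Λ + M * (1 / 2) ^ J := by
  classical
  have hM : 0 ≤ M := le_trans (Nat.cast_nonneg _) hcard
  have hxB : ∀ a ∈ B, |x a| ≤ 1 := fun a ha => hx a (hBA ha)
  by_cases hC : ∃ q, q ≤ J ∧ 2 * M < mcost B x h ((1 / 2) ^ q)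
  · -- partial move
    set q := Nat.find hC with hq
    obtain ⟨hqJ, hqC⟩ := Nat.find_spec hC
    have hq0 : q ≠ 0 := by
      intro h0
      rw [← hq, h0] at hqC
      have : mcost B x h ((1 / 2) ^ 0) = 0 := by
        unfold mcost
        refine Finset.sum_eq_zero fun a ha => ?_
        rw [if_neg]
        rw [pow_zero]
        exact not_lt.2 (hh a (hBA ha))
      rw [this] at hqC
      linarith
    obtain ⟨r, hr⟩ := Nat.exists_eq_succ_of_ne_zero hq0
    have hrC : mcost B x h ((1 / 2) ^ r) ≤ 2 * M := by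
      have := Nat.find_min hC (m := r) (by omega)
      push Not at this
      exact this (by omega)
    rw [← hq, hr] at hqC
    have hrJ : r + 1 ≤ J := by omega
    set τ : ℝ := (1 / 2) ^ (r + 1) with hτ
    have hτ0 : 0 < τ := by positivity
    have hτ2 : ((1:ℝ) / 2) ^ r = 2 * τ := by
      rw [hτ, pow_succ]
      ring
    rw [hτ2] at hrC
    change 2 * M < mcost B x h τ at hqC
    set C1 := mcost B x h τ with hC1
    set C2 := mcost B x h (2 * τ) with hC2
    set θ := (2 * M - C2) / (C1 - C2) with hθ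
    have hpos : 0 < C1 - C2 := by linarith
    have hθ0 : 0 ≤ θ := div_nonneg (by linarith) hpos.le
    have hθ1 : θ ≤ 1 := by
      rw [hθ, div_le_one hpos]
      linarith
    have hθC : θ * (C1 - C2) = 2 * M - C2 := div_mul_cancel₀ _ hpos.ne'
    set y : ι → ℝ := fun a => if a ∈ B then
      (if 2 * τ < |h a| then - sg (h a) else if τ < |h a| then x a - θ * (x a + sg (h a))
        else x a) else 0 with hy
    have hmass : ∀ a ∈ B, |y a - x a| =
        θ * (if τ < |h a| then 1 + sg (h a) * x a else 0) +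
        (1 - θ) * (if 2 * τ < |h a| then 1 + sg (h a) * x a else 0) := by
      intro a ha
      simp only [hy, if_pos ha]
      by_cases h1 : 2 * τ < |h a|
      · have h2 : τ < |h a| := by linarith
        rw [if_pos h1, if_pos h1, if_pos h2]
        rw [show - sg (h a) - x a = -(x a + sg (h a)) by ring, abs_neg, abs_add_sg (hxB a ha)]
        ring
      · rw [if_neg h1, if_neg h1]
        by_cases h2 : τ < |h a|
        · rw [if_pos h2, if_pos h2]
          rw [show x a - θ * (x a + sg (h a)) - x a = -(θ * (x a + sg (h a))) by ring, abs_neg,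
            abs_mul, abs_of_nonneg hθ0, abs_add_sg (hxB a ha)]
          ring
        · rw [if_neg h2, if_neg h2]
          simp
    have hmsum : ∑ a ∈ B, |y a - x a| = 2 * M := by
      rw [Finset.sum_congr rfl hmass, Finset.sum_add_distrib, ← Finset.mul_sum, ← Finset.mul_sum]
      change θ * C1 + (1 - θ) * C2 = 2 * M
      linarith
    have hval : ∀ a ∈ B, y a * h a ≤ x a * clip (2 * τ) (h a) - τ * |y a - x a| := by
      intro a ha
      rw [hmass a ha]
      simp only [hy, if_pos ha]
      have hn := one_add_sg_mul_nonneg (y := h a) (hxB a ha)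
      have habs := sg_mul (h a)
      by_cases h1 : 2 * τ < |h a|
      · have h2 : τ < |h a| := by linarith
        rw [if_pos h1, if_pos h1, if_pos h2, mul_clip_of_lt (by linarith) h1]
        have h3 : - sg (h a) * h a = -|h a| := by rw [← habs]; ring
        rw [h3]
        nlinarith
      · rw [if_neg h1, if_neg h1]
        rw [clip_of_abs_le (not_lt.1 h1)]
        by_cases h2 : τ < |h a|
        · rw [if_pos h2, if_pos h2]
          have h3 : (x a - θ * (x a + sg (h a))) * h a =
              x a * h a - θ * (x a * h a + |h a|) := by rw [← habs]; ring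
          have h4 : x a * h a = sg (h a) * x a * |h a| := by
            rw [← habs]
            rcases sg_cases (h a) with hs | hs <;> rw [hs] <;> ring
          have h5 : x a * h a + |h a| = (1 + sg (h a) * x a) * |h a| := by rw [h4]; ring
          rw [h3, h5]
          have h6 : (1 + sg (h a) * x a) * τ ≤ (1 + sg (h a) * x a) * |h a| := by
            gcongr
          nlinarith
        · rw [if_neg h2, if_neg h2]
          simp
    refine ⟨y, ?_, ?_, hmsum.le, ?_⟩
    · intro a ha
      simp only [hy, if_pos ha]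
      obtain ⟨hx1, hx2⟩ := abs_le.1 (hxB a ha)
      split_ifs
      · rcases sg_cases (h a) with hs | hs <;> rw [hs] <;> norm_num
      · rcases sg_cases (h a) with hs | hs <;> rw [hs, abs_le] <;> constructor <;> nlinarith
      · exact hxB a ha
    · intro a ha
      simp only [hy, if_neg ha]
    · have h1 := Finset.sum_le_sum hval
      rw [Finset.sum_sub_distrib, ← Finset.mul_sum, hmsum] at h1
      have h2 := sum_sub_le hBA (τ := 2 * τ) (by linarith) hcard hx (h := h) (Λ := Λ) (by
        have := hΛ r (by omega)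
        rwa [hτ2] at this)
      have h3 : 0 ≤ M * (1 / 2) ^ J := by positivity
      linarith
  · -- full move
    push Not at hC
    have hCJ := hC J le_rfl
    set τ : ℝ := (1 / 2) ^ J with hτ
    have hτ0 : 0 < τ := by positivity
    set y : ι → ℝ := fun a => if a ∈ B then
      (if τ < |h a| then - sg (h a) else x a) else 0 with hy
    have hmass : ∀ a ∈ B, |y a - x a| = if τ < |h a| then 1 + sg (h a) * x a else 0 := by
      intro a ha
      simp only [hy, if_pos ha]
      split_ifs with h1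
      · rw [show - sg (h a) - x a = -(x a + sg (h a)) by ring, abs_neg, abs_add_sg (hxB a ha)]
      · simp
    have hval : ∀ a ∈ B, y a * h a ≤ x a * clip τ (h a) := by
      intro a ha
      simp only [hy, if_pos ha]
      split_ifs with h1
      · rw [mul_clip_of_lt hτ0.le h1]
        have h3 : - sg (h a) * h a = -|h a| := by rw [← sg_mul (h a)]; ring
        have := neg_le_sg_mul (y := h a) (hxB a ha)
        rw [h3]
        nlinarith
      · rw [clip_of_abs_le (not_lt.1 h1)]
    refine ⟨y, ?_, ?_, ?_, ?_⟩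
    · intro a ha
      simp only [hy, if_pos ha]
      split_ifs
      · rcases sg_cases (h a) with hs | hs <;> rw [hs] <;> norm_num
      · exact hxB a ha
    · intro a ha
      simp only [hy, if_neg ha]
    · rw [Finset.sum_congr rfl hmass]
      exact hCJ
    · have h1 := Finset.sum_le_sum hval
      have h2 := sum_sub_le hBA hτ0.le hcard hx (h := h) (Λ := Λ) (hΛ J le_rfl)
      linarith

end fix

end Pool.Agent.DynBal
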