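import Pool.Agent.DynBal.Final

/-!
# The game version and the numerical bounds
-/

set_option autoImplicit false

namespace Pool.Agent.DynBal

variable {n : ℕ}

lemma history_succ (A : Algorithm n) (B : Adversary n) (t : ℕ) :
    history A B (t + 1) = B (play A B t) :: history A B t := rfl

lemma history_length (A : Algorithm n) (B : Adversary n) (t : ℕ) :
    (history A B t).length = t := by
  induction t with
  | zero => rfl
  | succ t ih => rw [history_succ, List.length_cons, ih]

lemma history_drop (A : Algorithm n) (B : Adversary n) (t m : ℕ) :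
    (history A B t).drop m = history A B (t - m) := by
  induction m generalizing t with
  | zero => rw [List.drop_zero, Nat.sub_zero]
  | succ m ih =>
    cases t with
    | zero => simp [history, play]
    | succ t =>
      rw [history_succ, List.drop_succ_cons, ih]
      congr 1
      omega

lemma log2_bound {T : ℕ} (hT : 1 ≤ T) :
    ((Nat.log 2 T + 1 : ℕ) : ℝ) ≤ 1 + 3 / 2 * Real.log T := by
  have h1 : 2 ^ Nat.log 2 T ≤ T := Nat.pow_log_le_self 2 (by omega)
  have h2 : Real.log ((2:ℝ) ^ Nat.log 2 T) ≤ Real.log T := by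
    apply Real.log_le_log (by positivity)
    exact_mod_cast h1
  rw [Real.log_pow] at h2
  have h3 := Real.log_two_gt_d9
  have h4 : (0:ℝ) ≤ (Nat.log 2 T : ℝ) := Nat.cast_nonneg _
  push_cast
  nlinarith

lemma numeric {n T : ℕ} (hn : 1 ≤ n) (hT : 1 ≤ T) {L : ℕ} (hL : L = Nat.log 2 T + 1) :
    (L : ℝ) ≤ 3 / 2 * (1 + Real.log (n * T)) ∧
      (L : ℝ) * (nu L n + 1) ≤ 10 * (1 + Real.log (n * T)) ^ 3 := by
  have hn' : (1:ℝ) ≤ n := by exact_mod_cast hn
  have hT' : (1:ℝ) ≤ T := by exact_mod_cast hT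
  have hln : 0 ≤ Real.log n := Real.log_nonneg hn'
  have hlT : 0 ≤ Real.log T := Real.log_nonneg hT'
  have hlog : Real.log (n * T) = Real.log n + Real.log T :=
    Real.log_mul (by positivity) (by positivity)
  set ℓ := 1 + Real.log (n * T) with hℓ
  have hℓ1 : 1 ≤ ℓ := by linarith
  have hLb : (L : ℝ) ≤ 1 + 3 / 2 * Real.log T := by rw [hL]; exact log2_bound hT
  have h1 : (L : ℝ) ≤ 3 / 2 * ℓ := by linarith
  refine ⟨h1, ?_⟩
  have hL0 : (0:ℝ) ≤ L := Nat.cast_nonneg _
  have hlL : Real.log ((L + 1 : ℕ) : ℝ) ≤ L := by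
    have := Real.log_le_sub_one_of_pos (x := ((L + 1 : ℕ) : ℝ)) (by positivity)
    push_cast at this ⊢
    linarith
  have hnu : nu L n ≤ Real.log 2 + (L * L + (Real.log 2 + Real.log n + 2)) := by
    unfold nu
    have hp : (0:ℝ) < ((L + 1 : ℕ) : ℝ) := by positivity
    rw [Real.log_mul (by norm_num) (by positivity), Real.log_mul (by positivity) (by positivity),
      Real.log_mul (by positivity) (by positivity), Real.log_mul (by norm_num) (by positivity),
      Real.log_pow, Real.log_exp]
    have := mul_le_mul_of_nonneg_left hlL hL0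
    linarith
  have h2 := Real.log_two_lt_d9
  have h3 : (L:ℝ) * L ≤ 9 / 4 * ℓ ^ 2 := by nlinarith
  have h4 : nu L n + 1 ≤ 33 / 5 * ℓ ^ 2 := by
    have h5 : Real.log n ≤ ℓ - 1 := by linarith
    nlinarith
  have h6 : 0 ≤ nu L n + 1 := by
    have := nu_nonneg (L := L) (n := n) (by omega)
    linarith
  calc (L : ℝ) * (nu L n + 1) ≤ (3 / 2 * ℓ) * (33 / 5 * ℓ ^ 2) := by
        apply mul_le_mul h1 h4 h6 (by positivity)
    _ ≤ 10 * ℓ ^ 3 := by
        have : 0 ≤ ℓ ^ 3 := by positivity
        nlinarith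

end Pool.Agent.DynBal
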