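import Pool.Agent.DynBal.Contr

/-!
# The exponential moment of the iterated clip/mixture classes
-/

open scoped ENNReal

namespace Pool.Agent.DynBal

variable {ι T S : Type*}

lemma E2_mono_index {κ : Type*} (Q : Finset κ) (c : ι → T → ℝ) (c' : κ → ι → S → ℝ)
    (qf : T → κ) (hq : ∀ t, qf t ∈ Q) (sf : T → S)
    (hc : ∀ t a, c a t = c' (qf t) a (sf t)) (l : List ι)
    (u : T → ℝ) (u' : κ → S → ℝ) (hu : ∀ t, u t = u' (qf t) (sf t)) :
    E2 c l u ≤ ∑ q ∈ Q, E2 (c' q) l (u' q) := by
  induction l generalizing u u' with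
  | nil =>
    simp only [E2]
    refine iSup_le fun t => ?_
    rw [hu t]
    refine le_trans ?_ (Finset.single_le_sum (f := fun q => ⨆ s, ENNReal.ofReal
      (Real.exp (u' q s))) (fun _ _ => zero_le) (hq t))
    exact le_iSup (fun s => ENNReal.ofReal (Real.exp (u' (qf t) s))) (sf t)
  | cons a l ih =>
    simp only [E2]
    have i1 := ih (fun t => u t + c a t) (fun q s => u' q s + c' q a s)
      (fun t => by simp only [hu t, hc t a])
    have i2 := ih (fun t => u t - c a t) (fun q s => u' q s - c' q a s)
      (fun t => by simp only [hu t, hc t a])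
    calc _ ≤ (∑ q ∈ Q, E2 (c' q) l (fun s => u' q s + c' q a s) +
          ∑ q ∈ Q, E2 (c' q) l (fun s => u' q s - c' q a s)) / 2 := by
            gcongr ?_ / 2
            exact add_le_add i1 i2
      _ = _ := by
        rw [← Finset.sum_add_distrib, div_eq_mul_inv, Finset.sum_mul]
        rfl

lemma E2_unit (c : ι → Unit → ℝ) (l : List ι) (u : Unit → ℝ) :
    E2 c l u = ENNReal.ofReal (Real.exp (u ()) * (l.map (fun a => Real.cosh (c a ()))).prod) := by
  induction l generalizing u with
  | nil => simp [E2]
  | cons a l ih =>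
    simp only [E2, ih, List.map_cons, List.prod_cons]
    have hp : 0 ≤ (l.map (fun a => Real.cosh (c a ()))).prod := by
      apply List.prod_nonneg
      intro x hx
      obtain ⟨b, -, rfl⟩ := List.mem_map.1 hx
      exact (Real.cosh_pos _).le
    rw [← ENNReal.ofReal_add (mul_nonneg (Real.exp_pos _).le hp)
      (mul_nonneg (Real.exp_pos _).le hp)]
    rw [show (2:ℝ≥0∞) = ENNReal.ofReal 2 by simp]
    rw [← ENNReal.ofReal_div_of_pos (by norm_num)]
    congr 1
    rw [Real.cosh_eq, sub_eq_add_neg, Real.exp_add, Real.exp_add]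
    ring

/-- suprema over a convex hull of exponentials of linear functionals -/
lemma E2_convexHull {E : Type*} [AddCommGroup E] [Module ℝ E] (H : Set E)
    (c : ι → E →ₗ[ℝ] ℝ) (l : List ι) (u : E →ₗ[ℝ] ℝ) :
    E2 (T := ↥(convexHull ℝ H)) (fun a t => c a t) l (fun t => u t) ≤
      E2 (T := ↥H) (fun a t => c a t) l (fun t => u t) := by
  induction l generalizing u with
  | nil =>
    simp only [E2]
    refine iSup_le fun t => ?_
    obtain ⟨g, hg, hle⟩ := (u.convexOn (convex_convexHull ℝ H)).exists_ge_of_mem_convexHull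
      (subset_convexHull ℝ H) t.2
    refine (ENNReal.ofReal_le_ofReal (Real.exp_le_exp.2 hle)).trans ?_
    exact le_iSup (fun t : ↥H => ENNReal.ofReal (Real.exp (u t))) ⟨g, hg⟩
  | cons a l ih =>
    simp only [E2]
    gcongr ?_ / 2
    have i1 := ih (u + c a)
    have i2 := ih (u - c a)
    simp only [LinearMap.add_apply, LinearMap.sub_apply] at i1 i2
    exact add_le_add i1 i2

lemma sup_two_conv (x : ℝ) (hx : |x| ≤ 1) (u w : T → ℝ) :
    ENNReal.ofReal ((1 + x) / 2) * (⨆ t, ENNReal.ofReal (Real.exp (u t + (1 - x) * w t))) +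
      ENNReal.ofReal ((1 - x) / 2) * (⨆ t, ENNReal.ofReal (Real.exp (u t - (1 + x) * w t))) ≤
    ((⨆ t, ENNReal.ofReal (Real.exp (u t + 2 * w t))) +
      (⨆ t, ENNReal.ofReal (Real.exp (u t - 2 * w t)))) / 2 := by
  obtain ⟨hx1, hx2⟩ := abs_le.1 hx
  set P := ⨆ t, ENNReal.ofReal (Real.exp (u t + 2 * w t)) with hP
  set M := ⨆ t, ENNReal.ofReal (Real.exp (u t - 2 * w t)) with hM
  have key : ∀ α β : ℝ, 0 ≤ α → 0 ≤ β → α + β = 1 → ∀ y : ℝ, y = 2 * α - 2 * β →
      (⨆ t, ENNReal.ofReal (Real.exp (u t + y * w t))) ≤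
        ENNReal.ofReal α * P + ENNReal.ofReal β * M := by
    intro α β hα hβ hab y hy
    refine iSup_le fun t => ?_
    have hconv := convexOn_exp.2 (Set.mem_univ (u t + 2 * w t)) (Set.mem_univ (u t - 2 * w t))
      hα hβ hab
    simp only [smul_eq_mul] at hconv
    have he : α * (u t + 2 * w t) + β * (u t - 2 * w t) = u t + y * w t := by
      rw [hy]
      have : α = 1 - β := by linarith
      rw [this]; ring
    rw [he] at hconv
    refine (ENNReal.ofReal_le_ofReal hconv).trans ?_
    rw [ENNReal.ofReal_add (by positivity) (by positivity), ENNReal.ofReal_mul hα,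
      ENNReal.ofReal_mul hβ]
    gcongr
    · exact le_iSup (fun t => ENNReal.ofReal (Real.exp (u t + 2 * w t))) t
    · exact le_iSup (fun t => ENNReal.ofReal (Real.exp (u t - 2 * w t))) t
  have k1 := key ((3 - x) / 4) ((1 + x) / 4) (by linarith) (by linarith) (by ring) (1 - x)
    (by ring)
  have k2 := key ((1 - x) / 4) ((3 + x) / 4) (by linarith) (by linarith) (by ring) (-(1 + x))
    (by ring)
  have e2 : (fun t => ENNReal.ofReal (Real.exp (u t - (1 + x) * w t))) =
      fun t => ENNReal.ofReal (Real.exp (u t + -(1 + x) * w t)) := by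
    funext t
    congr 2
    ring
  rw [e2]
  calc _ ≤ ENNReal.ofReal ((1 + x) / 2) *
        (ENNReal.ofReal ((3 - x) / 4) * P + ENNReal.ofReal ((1 + x) / 4) * M) +
        ENNReal.ofReal ((1 - x) / 2) *
        (ENNReal.ofReal ((1 - x) / 4) * P + ENNReal.ofReal ((3 + x) / 4) * M) := by
          gcongr
    _ = (ENNReal.ofReal ((1 + x) / 2 * ((3 - x) / 4)) + ENNReal.ofReal ((1 - x) / 2 * ((1 - x) / 4)))
          * P +
        (ENNReal.ofReal ((1 + x) / 2 * ((1 + x) / 4)) + ENNReal.ofReal ((1 - x) / 2 * ((3 + x) / 4)))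
          * M := by
          rw [ENNReal.ofReal_mul (by linarith), ENNReal.ofReal_mul (by linarith),
            ENNReal.ofReal_mul (by linarith), ENNReal.ofReal_mul (by linarith)]
          ring
    _ = ENNReal.ofReal (1 / 2) * P + ENNReal.ofReal (1 / 2) * M := by
          rw [← ENNReal.ofReal_add (by apply mul_nonneg <;> linarith)
            (by apply mul_nonneg <;> linarith),
            ← ENNReal.ofReal_add (by apply mul_nonneg <;> linarith)
            (by apply mul_nonneg <;> linarith)]
          congr 3 <;> ring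
    _ = _ := by
          rw [one_div, ENNReal.ofReal_inv_of_pos (by norm_num), ENNReal.div_eq_inv_mul, mul_add]
          simp

lemma E2_conv (x : ℝ) (hx : |x| ≤ 1) (c : ι → T → ℝ) (l : List ι) (u w : T → ℝ) :
    ENNReal.ofReal ((1 + x) / 2) * E2 c l (fun t => u t + (1 - x) * w t) +
      ENNReal.ofReal ((1 - x) / 2) * E2 c l (fun t => u t - (1 + x) * w t) ≤
    (E2 c l (fun t => u t + 2 * w t) + E2 c l (fun t => u t - 2 * w t)) / 2 := by
  induction l generalizing u with
  | nil => exact sup_two_conv x hx u w
  | cons a l ih =>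
    simp only [E2]
    have i1 := ih (fun t => u t + c a t)
    have i2 := ih (fun t => u t - c a t)
    have r1 : (fun t => u t + (1 - x) * w t + c a t) = fun t => u t + c a t + (1 - x) * w t := by
      funext t; ring
    have r2 : (fun t => u t + (1 - x) * w t - c a t) = fun t => u t - c a t + (1 - x) * w t := by
      funext t; ring
    have r3 : (fun t => u t - (1 + x) * w t + c a t) = fun t => u t + c a t - (1 + x) * w t := by
      funext t; ring
    have r4 : (fun t => u t - (1 + x) * w t - c a t) = fun t => u t - c a t - (1 + x) * w t := by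
      funext t; ring
    have r5 : (fun t => u t + 2 * w t + c a t) = fun t => u t + c a t + 2 * w t := by
      funext t; ring
    have r6 : (fun t => u t + 2 * w t - c a t) = fun t => u t - c a t + 2 * w t := by
      funext t; ring
    have r7 : (fun t => u t - 2 * w t + c a t) = fun t => u t + c a t - 2 * w t := by
      funext t; ring
    have r8 : (fun t => u t - 2 * w t - c a t) = fun t => u t - c a t - 2 * w t := by
      funext t; ring
    rw [r1, r2, r3, r4, r5, r6, r7, r8]
    generalize ENNReal.ofReal ((1 + x) / 2) = p at *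
    generalize ENNReal.ofReal ((1 - x) / 2) = q at *
    calc _ = (p * E2 c l (fun t => u t + c a t + (1 - x) * w t) +
            q * E2 c l (fun t => u t + c a t - (1 + x) * w t)) / 2 +
          (p * E2 c l (fun t => u t - c a t + (1 - x) * w t) +
            q * E2 c l (fun t => u t - c a t - (1 + x) * w t)) / 2 := by
            simp only [div_eq_mul_inv]
            ring
      _ ≤ ((E2 c l (fun t => u t + c a t + 2 * w t) +
            E2 c l (fun t => u t + c a t - 2 * w t)) / 2) / 2 +
          ((E2 c l (fun t => u t - c a t + 2 * w t) +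
            E2 c l (fun t => u t - c a t - 2 * w t)) / 2) / 2 := by
            gcongr
      _ = _ := by
            simp only [div_eq_mul_inv]
            ring

end Pool.Agent.DynBal
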