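import Pool.Agent.DynBal.Cls

/-!
# Randomised rounding of a fractional signing
-/

open scoped ENNReal

namespace Pool.Agent.DynBal

variable {ι T : Type*}

lemma min_le_mix {p q X Y : ℝ≥0∞} (h : p + q = 1) : min X Y ≤ p * X + q * Y := by
  calc min X Y = (p + q) * min X Y := by rw [h, one_mul]
    _ = p * min X Y + q * min X Y := by rw [add_mul]
    _ ≤ p * X + q * Y := by
      gcongr
      · exact min_le_left _ _
      · exact min_le_right _ _

/-- the deviation term -/
noncomputable def devi (c : ι → T → ℝ) (x s : ι → ℝ) (l : List ι) (u : T → ℝ) : ℝ≥0∞ :=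
  ⨆ t, ENNReal.ofReal (Real.exp (u t + (l.map (fun a => (s a - x a) * c a t)).sum))

/-- number of changed signs, as a real number -/
noncomputable def chg (x s0 : ι → ℝ) (l : List ι) : ℝ := (l.map (fun a => |x a - s0 a|)).sum / 2

lemma chg_nonneg (x s0 : ι → ℝ) (l : List ι) : 0 ≤ chg x s0 l := by
  unfold chg
  have : 0 ≤ (l.map (fun a => |x a - s0 a|)).sum := by
    apply List.sum_nonneg
    intro y hy
    obtain ⟨b, -, rfl⟩ := List.mem_map.1 hy
    exact abs_nonneg _
  positivity

lemma chg_cons (x s0 : ι → ℝ) (a : ι) (l : List ι) :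
    chg x s0 (a :: l) = |x a - s0 a| / 2 + chg x s0 l := by
  unfold chg
  rw [List.map_cons, List.sum_cons]
  ring

lemma chg_congr {x x' s0 : ι → ℝ} {l : List ι} (h : ∀ a ∈ l, x a = x' a) :
    chg x s0 l = chg x' s0 l := by
  unfold chg
  congr 2
  exact List.map_congr_left fun a ha => by rw [h a ha]

lemma devi_congr {c : ι → T → ℝ} {x s s' : ι → ℝ} {l : List ι} {u : T → ℝ}
    (h : ∀ a ∈ l, s a = s' a) : devi c x s l u = devi c x s' l u := by
  unfold devi
  congr 1
  funext t
  congr 4
  exact List.map_congr_left fun a ha => by rw [h a ha]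

lemma devi_cons (c : ι → T → ℝ) (x s : ι → ℝ) (a : ι) (l : List ι) (u : T → ℝ) :
    devi c x s (a :: l) u = devi c x s l (fun t => u t + (s a - x a) * c a t) := by
  unfold devi
  congr 1
  funext t
  rw [List.map_cons, List.sum_cons, ← add_assoc]

lemma round_aux (c : ι → T → ℝ) (x s0 : ι → ℝ) (w : ℝ≥0∞) (l : List ι)
    (hl : l.Nodup) (hx : ∀ a ∈ l, |x a| ≤ 1) (hs : ∀ a, s0 a = 1 ∨ s0 a = -1) (u : T → ℝ) :
    ∃ s : ι → ℝ, (∀ a, s a = 1 ∨ s a = -1) ∧ (∀ a, a ∉ l → s a = s0 a) ∧
      devi c x s l u + w * ENNReal.ofReal (chg s s0 l) ≤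
        E2 (fun a t => 2 * c a t) l u + w * ENNReal.ofReal (chg x s0 l) := by
  classical
  induction l generalizing u with
  | nil =>
    refine ⟨s0, hs, fun _ _ => rfl, ?_⟩
    simp [devi, chg, E2]
  | cons a l ih =>
    obtain ⟨hal, hl'⟩ := List.nodup_cons.1 hl
    have hx' : ∀ b ∈ l, |x b| ≤ 1 := fun b hb => hx b (List.mem_cons_of_mem _ hb)
    obtain ⟨hxa1, hxa2⟩ := abs_le.1 (hx a List.mem_cons_self)
    obtain ⟨sp, hsp1, hsp2, hsp3⟩ := ih hl' hx' (fun t => u t + (1 - x a) * c a t)
    obtain ⟨sm, hsm1, hsm2, hsm3⟩ := ih hl' hx' (fun t => u t - (1 + x a) * c a t)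
    set p := ENNReal.ofReal ((1 + x a) / 2) with hp
    set q := ENNReal.ofReal ((1 - x a) / 2) with hq
    have hpq : p + q = 1 := by
      rw [hp, hq, ← ENNReal.ofReal_add (by linarith) (by linarith)]
      rw [show (1 + x a) / 2 + (1 - x a) / 2 = 1 by ring, ENNReal.ofReal_one]
    have hconv := E2_conv (x a) (hx a List.mem_cons_self) (fun a t => 2 * c a t) l u (c a)
    rw [← hp, ← hq] at hconv
    -- the two candidates
    have key : ∀ (s' : ι → ℝ) (e : ℝ), (e = 1 ∨ e = -1) → (∀ b, s' b = 1 ∨ s' b = -1) →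
        (∀ b, b ∉ l → s' b = s0 b) →
        (∀ b, Function.update s' a e b = 1 ∨ Function.update s' a e b = -1) ∧
        (∀ b, b ∉ a :: l → Function.update s' a e b = s0 b) ∧
        devi c x (Function.update s' a e) (a :: l) u =
          devi c x s' l (fun t => u t + (e - x a) * c a t) ∧
        chg (Function.update s' a e) s0 (a :: l) = |e - s0 a| / 2 + chg s' s0 l := by
      intro s' e he h1 h2
      have hne : ∀ b ∈ l, Function.update s' a e b = s' b := by
        intro b hb
        rw [Function.update_of_ne]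
        rintro rfl
        exact hal hb
      refine ⟨fun b => ?_, fun b hb => ?_, ?_, ?_⟩
      · by_cases hb : b = a
        · subst hb
          rw [Function.update_self]
          exact he
        · rw [Function.update_of_ne hb]
          exact h1 b
      · have hba : b ≠ a := fun h => hb (h ▸ List.mem_cons_self)
        rw [Function.update_of_ne hba]
        exact h2 b (fun h => hb (List.mem_cons_of_mem _ h))
      · rw [devi_cons, Function.update_self]
        exact devi_congr hne
      · rw [chg_cons, Function.update_self, chg_congr hne]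
    obtain ⟨kp1, kp2, kp3, kp4⟩ := key sp 1 (Or.inl rfl) hsp1 hsp2
    obtain ⟨km1, km2, km3, km4⟩ := key sm (-1) (Or.inr rfl) hsm1 hsm2
    have em : (fun t => u t + (-1 - x a) * c a t) = fun t => u t - (1 + x a) * c a t := by
      funext t; ring
    rw [em] at km3
    set RHS := E2 (fun a t => 2 * c a t) (a :: l) u + w * ENNReal.ofReal (chg x s0 (a :: l))
      with hR
    set VP := devi c x (Function.update sp a 1) (a :: l) u +
      w * ENNReal.ofReal (chg (Function.update sp a 1) s0 (a :: l)) with hVP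
    set VM := devi c x (Function.update sm a (-1)) (a :: l) u +
      w * ENNReal.ofReal (chg (Function.update sm a (-1)) s0 (a :: l)) with hVM
    have hmix : p * VP + q * VM ≤ RHS := by
      have hVP' : VP ≤ E2 (fun a t => 2 * c a t) l (fun t => u t + (1 - x a) * c a t) +
          w * ENNReal.ofReal (chg x s0 l) + w * ENNReal.ofReal (|1 - s0 a| / 2) := by
        rw [hVP, kp3, kp4, ENNReal.ofReal_add (by positivity) (chg_nonneg _ _ _), mul_add]
        calc _ = (devi c x sp l (fun t => u t + (1 - x a) * c a t) +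
              w * ENNReal.ofReal (chg sp s0 l)) + w * ENNReal.ofReal (|1 - s0 a| / 2) := by ring
          _ ≤ _ := by gcongr
      have hVM' : VM ≤ E2 (fun a t => 2 * c a t) l (fun t => u t - (1 + x a) * c a t) +
          w * ENNReal.ofReal (chg x s0 l) + w * ENNReal.ofReal (|-1 - s0 a| / 2) := by
        rw [hVM, km3, km4, ENNReal.ofReal_add (by positivity) (chg_nonneg _ _ _), mul_add]
        calc _ = (devi c x sm l (fun t => u t - (1 + x a) * c a t) +
              w * ENNReal.ofReal (chg sm s0 l)) + w * ENNReal.ofReal (|-1 - s0 a| / 2) := by ring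
          _ ≤ _ := by gcongr
      have hcost : p * ENNReal.ofReal (|1 - s0 a| / 2) + q * ENNReal.ofReal (|-1 - s0 a| / 2) =
          ENNReal.ofReal (|x a - s0 a| / 2) := by
        rw [hp, hq, ← ENNReal.ofReal_mul (by linarith), ← ENNReal.ofReal_mul (by linarith),
          ← ENNReal.ofReal_add (by apply mul_nonneg (by linarith) (by positivity))
          (by apply mul_nonneg (by linarith) (by positivity))]
        congr 1
        rcases hs a with h | h
        · rw [h, abs_of_nonpos (by linarith : x a - 1 ≤ 0)]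
          norm_num
        · rw [h, abs_of_nonneg (by linarith : 0 ≤ x a - -1)]
          norm_num
          ring
      calc p * VP + q * VM ≤
          p * (E2 (fun a t => 2 * c a t) l (fun t => u t + (1 - x a) * c a t) +
            w * ENNReal.ofReal (chg x s0 l) + w * ENNReal.ofReal (|1 - s0 a| / 2)) +
          q * (E2 (fun a t => 2 * c a t) l (fun t => u t - (1 + x a) * c a t) +
            w * ENNReal.ofReal (chg x s0 l) + w * ENNReal.ofReal (|-1 - s0 a| / 2)) := by
            gcongr
        _ = (p * E2 (fun a t => 2 * c a t) l (fun t => u t + (1 - x a) * c a t) +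
              q * E2 (fun a t => 2 * c a t) l (fun t => u t - (1 + x a) * c a t)) +
            (p + q) * (w * ENNReal.ofReal (chg x s0 l)) +
            w * (p * ENNReal.ofReal (|1 - s0 a| / 2) + q * ENNReal.ofReal (|-1 - s0 a| / 2)) := by
            ring
        _ ≤ E2 (fun a t => 2 * c a t) (a :: l) u +
            w * ENNReal.ofReal (chg x s0 l) + w * ENNReal.ofReal (|x a - s0 a| / 2) := by
            rw [hpq, one_mul, hcost]
            gcongr
            exact hconv
        _ = RHS := by
            rw [hR, chg_cons, ENNReal.ofReal_add (by positivity) (chg_nonneg _ _ _), mul_add]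
            ring
    have hmin : min VP VM ≤ RHS := (min_le_mix hpq).trans hmix
    rcases min_le_iff.1 hmin with h | h
    · exact ⟨Function.update sp a 1, kp1, kp2, h⟩
    · exact ⟨Function.update sm a (-1), km1, km2, h⟩

/-- A signing `x` (possibly fractional) is good at level `k` with slack `Λ`. -/
def Good {n : ℕ} (J k : ℕ) (Λ : ℝ) (A : Finset ι) (v : ι → Fin n → ℝ) (x : ι → ℝ) : Prop :=
  ∀ g ∈ cls n J k, ∑ a ∈ A, x a * g (v a) ≤ Λ

lemma log_two_mul_le {C : ℝ} (hC : 0 < C) {y : ℝ}
    (h : ENNReal.ofReal (Real.exp y) ≤ ENNReal.ofReal (2 * C)) : y ≤ Real.log (2 * C) := by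
  have h1 : Real.exp y ≤ 2 * C := (ENNReal.ofReal_le_ofReal_iff (by positivity)).1 h
  exact (Real.le_log_iff_exp_le (by positivity)).2 h1

lemma round_exists {n : ℕ} (hn : 0 < n) (J k : ℕ) (Λ : ℝ) (A : Finset ι) (v : ι → Fin n → ℝ)
    (he : ∀ i, ∑ a ∈ A, v a i ^ 2 ≤ 1) (x s0 : ι → ℝ) (hx : ∀ a ∈ A, |x a| ≤ 1)
    (hs : ∀ a, s0 a = 1 ∨ s0 a = -1) (hg : Good J k Λ A v x) {B : ℝ} (hB : 0 < B)
    (hxs : ∑ a ∈ A, |x a - s0 a| ≤ 2 * B) :
    ∃ s : ι → ℝ, (∀ a, s a = 1 ∨ s a = -1) ∧ (∀ a, a ∉ A → s a = s0 a) ∧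
      ∑ a ∈ A, |s a - s0 a| ≤ 4 * B ∧
      Good J k (Λ + Real.log (2 * (((J + 1 : ℕ) : ℝ) ^ k * (2 * n * Real.exp 2)))) A v s := by
  classical
  set C : ℝ := ((J + 1 : ℕ) : ℝ) ^ k * (2 * n * Real.exp 2) with hC
  have hCpos : 0 < C := by
    have : (0:ℝ) < n := by exact_mod_cast hn
    positivity
  have hsum : ∀ f : ι → ℝ, (A.toList.map f).sum = ∑ a ∈ A, f a := fun f => Finset.sum_map_toList A f
  have hm := mgf (J := J) hn v A.toList (fun i => by rw [hsum]; exact he i) k
  rw [← hC] at hm
  obtain ⟨s, h1, h2, h3⟩ := round_aux (T := ↥(cls n J k)) (fun a t => t.1 (v a)) x s0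
    (ENNReal.ofReal (C / B)) A.toList (Finset.nodup_toList A)
    (fun a ha => hx a (Finset.mem_toList.1 ha)) hs (fun _ => 0)
  have hchgx : chg x s0 A.toList ≤ B := by
    unfold chg
    rw [hsum]
    linarith
  have h4 : devi (T := ↥(cls n J k)) (fun a t => t.1 (v a)) x s A.toList (fun _ => 0) +
      ENNReal.ofReal (C / B) * ENNReal.ofReal (chg s s0 A.toList) ≤ ENNReal.ofReal (2 * C) := by
    refine h3.trans ?_
    calc _ ≤ ENNReal.ofReal C + ENNReal.ofReal (C / B) * ENNReal.ofReal B := by
          gcongr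
          exact hm
      _ = ENNReal.ofReal (2 * C) := by
          rw [← ENNReal.ofReal_mul (by positivity), ← ENNReal.ofReal_add hCpos.le (by positivity)]
          congr 1
          field_simp
          ring
  refine ⟨s, h1, fun a ha => h2 a (fun h => ha (Finset.mem_toList.1 h)), ?_, ?_⟩
  · have h5 : ENNReal.ofReal (C / B * chg s s0 A.toList) ≤ ENNReal.ofReal (2 * C) := by
      rw [ENNReal.ofReal_mul (by positivity)]
      exact le_trans le_add_self h4
    have h6 : C / B * chg s s0 A.toList ≤ 2 * C :=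
      (ENNReal.ofReal_le_ofReal_iff (by positivity)).1 h5
    have h7 : chg s s0 A.toList ≤ 2 * B := by
      rw [div_mul_eq_mul_div, div_le_iff₀ hB] at h6
      have : C * chg s s0 A.toList ≤ C * (2 * B) := by linarith
      exact le_of_mul_le_mul_left this hCpos
    unfold chg at h7
    rw [hsum] at h7
    linarith
  · intro g hg'
    have h5 : ENNReal.ofReal (Real.exp (∑ a ∈ A, (s a - x a) * g (v a))) ≤
        ENNReal.ofReal (2 * C) := by
      refine le_trans ?_ (le_trans le_self_add h4)
      unfold devi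
      refine le_trans (le_of_eq ?_) (le_iSup (fun t : ↥(cls n J k) => ENNReal.ofReal (Real.exp
        (0 + (A.toList.map (fun a => (s a - x a) * t.1 (v a))).sum))) ⟨g, hg'⟩)
      rw [zero_add, hsum]
    have h6 := log_two_mul_le hCpos h5
    have h7 := hg g hg'
    have h8 : ∑ a ∈ A, s a * g (v a) = ∑ a ∈ A, x a * g (v a) + ∑ a ∈ A, (s a - x a) * g (v a) := by
      rw [← Finset.sum_add_distrib]
      refine Finset.sum_congr rfl fun a _ => ?_
      ring
    rw [h8]
    linarith

end Pool.Agent.DynBal
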