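import Pool.Agent.DynBal.Fix

/-!
# One repair step of the dynamic algorithm
-/

open scoped ENNReal

namespace Pool.Agent.DynBal

variable {ι : Type*} {n : ℕ}

/-- the pairing of signings with test functions -/
noncomputable def pairL (B : Finset ι) (v : ι → Fin n → ℝ) :
    ((Fin n → ℝ) → ℝ) →ₗ[ℝ] ((ι → ℝ) →L[ℝ] ℝ) :=
  ∑ a ∈ B, LinearMap.smulRight (LinearMap.proj (v a) : ((Fin n → ℝ) → ℝ) →ₗ[ℝ] ℝ)
    (ContinuousLinearMap.proj a : (ι → ℝ) →L[ℝ] ℝ)

lemma pairL_apply (B : Finset ι) (v : ι → Fin n → ℝ) (g : (Fin n → ℝ) → ℝ) (y : ι → ℝ) :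
    pairL B v g y = ∑ a ∈ B, y a * g (v a) := by
  unfold pairL
  rw [LinearMap.sum_apply, _root_.sum_apply]
  refine Finset.sum_congr rfl fun a _ => ?_
  simp [mul_comm]

lemma fix_exists [DecidableEq ι] (J k : ℕ) (A A' : Finset ι) (v : ι → Fin n → ℝ)
    (hv : ∀ a ∈ A, v a ∈ Cube n) (x : ι → ℝ) (hx : ∀ a ∈ A, |x a| ≤ 1) {Λ M : ℝ}
    (hg : Good J (k + 1) Λ A v x) (hcard : ((A \ A').card : ℝ) ≤ M) :
    ∃ x' : ι → ℝ, (∀ a, |x' a| ≤ 1) ∧ (∀ a, a ∉ A ∩ A' → x' a = 0) ∧
      ∑ a ∈ A ∩ A', |x' a - x a| ≤ 2 * M ∧ Good J k (Λ + M * (1 / 2) ^ J) A' v x' := by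
  classical
  set B := A ∩ A' with hB
  have hBA : B ⊆ A := Finset.inter_subset_left
  have hM : 0 ≤ M := le_trans (Nat.cast_nonneg _) hcard
  have hcard' : ((A \ B).card : ℝ) ≤ M := by
    rwa [hB, Finset.sdiff_inter_self_left]
  set X : Set (ι → ℝ) := (Set.univ.pi fun a => if a ∈ B then Set.Icc (-1:ℝ) 1 else {0}) ∩
    {y | ∑ a ∈ B, |y a - x a| ≤ 2 * M} with hX
  have hmem : ∀ y : ι → ℝ, y ∈ X ↔ (∀ a ∈ B, |y a| ≤ 1) ∧ (∀ a, a ∉ B → y a = 0) ∧
      ∑ a ∈ B, |y a - x a| ≤ 2 * M := by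
    intro y
    rw [hX]
    constructor
    · rintro ⟨h1, h2⟩
      refine ⟨fun a ha => ?_, fun a ha => ?_, h2⟩
      · have := h1 a (Set.mem_univ _)
        simp only [if_pos ha] at this
        exact abs_le.2 this
      · have := h1 a (Set.mem_univ _)
        simp only [if_neg ha] at this
        exact this
    · rintro ⟨h1, h2, h3⟩
      refine ⟨fun a _ => ?_, h3⟩
      by_cases ha : a ∈ B
      · simp only [if_pos ha]
        exact abs_le.1 (h1 a ha)
      · simp only [if_neg ha]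
        exact h2 a ha
  have hXk : IsCompact X := by
    rw [hX]
    refine IsCompact.inter_right (isCompact_univ_pi fun a => ?_) ?_
    · split_ifs
      · exact isCompact_Icc
      · exact isCompact_singleton
    · refine isClosed_le ?_ continuous_const
      refine continuous_finsetSum _ fun a _ => ?_
      exact ((continuous_apply a).sub continuous_const).abs
  have hXc : Convex ℝ X := by
    intro y hy z hz α β hα hβ hab
    rw [hmem] at hy hz ⊢
    refine ⟨fun a ha => ?_, fun a ha => ?_, ?_⟩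
    · calc |(α • y + β • z) a| = |α * y a + β * z a| := by simp
        _ ≤ |α * y a| + |β * z a| := abs_add_le _ _
        _ = α * |y a| + β * |z a| := by
          rw [abs_mul, abs_mul, abs_of_nonneg hα, abs_of_nonneg hβ]
        _ ≤ α * 1 + β * 1 := by
          gcongr
          · exact hy.1 a ha
          · exact hz.1 a ha
        _ = 1 := by rw [mul_one, mul_one, hab]
    · have e1 := hy.2.1 a ha
      have e2 := hz.2.1 a ha
      simp [e1, e2]
    · calc ∑ a ∈ B, |(α • y + β • z) a - x a| ≤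
            ∑ a ∈ B, (α * |y a - x a| + β * |z a - x a|) := by
            refine Finset.sum_le_sum fun a _ => ?_
            have e : (α • y + β • z) a - x a = α * (y a - x a) + β * (z a - x a) := by
              simp only [Pi.add_apply, Pi.smul_apply, smul_eq_mul]
              have : α = 1 - β := by linarith
              rw [this]
              ring
            rw [e]
            refine (abs_add_le _ _).trans ?_
            rw [abs_mul, abs_mul, abs_of_nonneg hα, abs_of_nonneg hβ]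
        _ = α * ∑ a ∈ B, |y a - x a| + β * ∑ a ∈ B, |z a - x a| := by
            rw [Finset.sum_add_distrib, Finset.mul_sum, Finset.mul_sum]
        _ ≤ α * (2 * M) + β * (2 * M) := by
            gcongr
            · exact hy.2.2
            · exact hz.2.2
        _ = 2 * M := by rw [← add_mul, hab, one_mul]
  have hXn : X.Nonempty := by
    refine ⟨fun a => if a ∈ B then x a else 0, ?_⟩
    rw [hmem]
    refine ⟨fun a ha => ?_, fun a ha => ?_, ?_⟩
    · simp only [if_pos ha]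
      exact hx a (hBA ha)
    · simp only [if_neg ha]
    · refine le_trans (le_of_eq ?_) (by positivity : (0:ℝ) ≤ 2 * M)
      refine Finset.sum_eq_zero fun a ha => ?_
      simp [ha]
  obtain ⟨y, hy, hyg⟩ := minimax_fin (pairL B v) hXc hXk hXn (cls n J k)
    (Λ + M * (1 / 2) ^ J) (by
      intro g hgc
      have hga : ∀ a ∈ A, |g (v a)| ≤ 1 := fun a ha =>
        abs_hull_le (fun f hf => abs_cls_le (hv a ha) hf) hgc
      obtain ⟨y, h1, h2, h3, h4⟩ := fix_one (h := fun a => g (v a)) (J := J) (Λ := Λ) hBA hcard'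
        hx hga (fun q hq => hg _ ⟨q, Finset.mem_range.2 (by omega), g, hgc, rfl⟩)
      refine ⟨y, (hmem y).2 ⟨h1, h2, h3⟩, ?_⟩
      rw [pairL_apply]
      exact h4)
  obtain ⟨h1, h2, h3⟩ := (hmem y).1 hy
  refine ⟨y, fun a => ?_, h2, h3, ?_⟩
  · by_cases ha : a ∈ B
    · exact h1 a ha
    · rw [h2 a ha]
      simp
  · intro g hg'
    have h4 := hyg g hg'
    rw [pairL_apply] at h4
    have h5 : ∑ a ∈ A', y a * g (v a) = ∑ a ∈ B, y a * g (v a) := by
      symm
      refine Finset.sum_subset Finset.inter_subset_right fun a _ ha => ?_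
      rw [h2 a ha, zero_mul]
    rw [h5]
    exact h4

/-- One step of the dynamic algorithm: from `A` to `A'`, at most `M` changes. -/
lemma step_exists [DecidableEq ι] (hn : 0 < n) (J k : ℕ) (A A' : Finset ι) (v : ι → Fin n → ℝ)
    (hv : ∀ a ∈ A, v a ∈ Cube n) (he : ∀ i, ∑ a ∈ A', v a i ^ 2 ≤ 1)
    (s0 : ι → ℝ) (hs : ∀ a, s0 a = 1 ∨ s0 a = -1) {Λ M : ℝ} (hM : 0 < M)
    (hg : Good J (k + 1) Λ A v s0) (hcard : ((A \ A').card : ℝ) + ((A' \ A).card : ℝ) ≤ M) :
    ∃ s : ι → ℝ, (∀ a, s a = 1 ∨ s a = -1) ∧ (∀ a, a ∉ A' → s a = s0 a) ∧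
      ∑ a ∈ A', |s a - s0 a| ≤ 6 * M ∧
      Good J k (Λ + M * (1 / 2) ^ J +
        Real.log (2 * (((J + 1 : ℕ) : ℝ) ^ k * (2 * n * Real.exp 2)))) A' v s := by
  classical
  have habs : ∀ a, |s0 a| ≤ 1 := fun a => by
    rcases hs a with h | h <;> rw [h] <;> norm_num
  have hc0 : (0:ℝ) ≤ ((A' \ A).card : ℝ) := Nat.cast_nonneg _
  obtain ⟨x, h1, h2, h3, h4⟩ := fix_exists J k A A' v hv s0 (fun a _ => habs a) hg
    (M := M) (by linarith)
  have hsum : ∑ a ∈ A', |x a - s0 a| ≤ 2 * (3 / 2 * M) := by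
    have e1 : ∑ a ∈ A', |x a - s0 a| = ∑ a ∈ A' \ A, |x a - s0 a| +
        ∑ a ∈ A' ∩ A, |x a - s0 a| := by
      rw [← Finset.sum_union (Finset.disjoint_sdiff_inter _ _), Finset.sdiff_union_inter]
    have e2 : ∑ a ∈ A' \ A, |x a - s0 a| = ((A' \ A).card : ℝ) := by
      rw [Finset.card_eq_sum_ones, Nat.cast_sum]
      refine Finset.sum_congr rfl fun a ha => ?_
      have ha' : a ∉ A ∩ A' := fun h => (Finset.mem_sdiff.1 ha).2 (Finset.mem_inter.1 h).1
      rw [h2 a ha', zero_sub, abs_neg]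
      rcases hs a with h | h <;> rw [h] <;> norm_num
    rw [Finset.inter_comm] at e1
    rw [e1, e2]
    linarith
  obtain ⟨s, k1, k2, k3, k4⟩ := round_exists hn J k _ A' v he x s0 (fun a _ => h1 a) hs h4
    (B := 3 / 2 * M) (by linarith) hsum
  refine ⟨s, k1, k2, ?_, k4⟩
  linarith

end Pool.Agent.DynBal
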